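import Pool.Agent.Lib.MP_1dedaf_gt.BL.D

/-!
# MP_1dedaf_gt, RF: finite reflection groups, definitions
-/

set_option autoImplicit false

open MeasureTheory Set Filter Topology
open scoped ENNReal NNReal Pointwise

namespace Pool.Agent.Lib.MP_1dedaf_gt.RF

open Pool.Agent.Lib.MP_1dedaf_gt.SC
open Pool.Agent.Lib.MP_1dedaf_gt.EG
open Pool.Agent.Lib.MP_1dedaf_gt.BL

/-- The chamber with the walls orthogonal to `α i`. -/
def cham {d : ℕ} (α : Fin d → E d) : Set (E d) := {y | ∀ i, 0 ≤ (inner ℝ y (α i) : ℝ)}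

/-- `G` is an irreducible finite reflection group, `α i` are the normals of the walls of a
chamber. -/
structure Refl {d : ℕ} (G : Subgroup (E d ≃ₗᵢ[ℝ] E d)) (α : Fin d → E d) : Prop where
  fin : Finite G
  ref : ∀ i, ∃ g ∈ G, ∀ y : E d, g y = y - (2 * inner ℝ y (α i) / inner ℝ (α i) (α i)) • α i
  indep : LinearIndependent ℝ α
  obt : ∀ i j, i ≠ j → (inner ℝ (α i) (α j) : ℝ) ≤ 0
  disj : ∀ g ∈ G, g ≠ 1 → Disjoint (interior (cham α)) (g '' interior (cham α))
  irr : ∀ J : Set (Fin d), J.Nonempty →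
    (∀ i ∈ J, ∀ j, j ∉ J → (inner ℝ (α i) (α j) : ℝ) = 0) → J = univ

/-- Invariance under `G` in the second variable. -/
def Inv {N d : ℕ} (G : Subgroup (E d ≃ₗᵢ[ℝ] E d)) (K : Set (E (N + d))) : Prop :=
  ∀ g ∈ G, ∀ x y, app x y ∈ K → app x (g y) ∈ K

/-- The class: invariant under `G`, sections in `X`. -/
def XR {N d : ℕ} (X : Set (E N) → Prop) (G : Subgroup (E d ≃ₗᵢ[ℝ] E d)) (K : Set (E (N + d))) :
    Prop :=
  Body K ∧ Inv G K ∧ ∀ y, (interior (sec K y)).Nonempty → X (sec K y)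

/-- Coordinates of the chamber: `Φ c` is the point with `<Φ c, α i> = c i`, `Ψ` is the adjoint
of `Φ`. -/
structure Cd {d : ℕ} (α : Fin d → E d) (Φ Ψ : E d ≃L[ℝ] E d) : Prop where
  inn : ∀ c i, (inner ℝ (Φ c) (α i) : ℝ) = c i
  dual : ∀ c v, (inner ℝ (Φ c) v : ℝ) = inner ℝ c (Ψ v)
  pos : ∀ v ∈ cham α, ∀ i, 0 ≤ Ψ v i
  sum : ∀ v, v = ∑ i, Ψ v i • α i

/-- The absolute values of the coordinates. -/
noncomputable def ab {d : ℕ} (c : E d) : E d := WithLp.toLp 2 (fun i => |c i|)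

/-- The coordinate reflection. -/
noncomputable def flip {d : ℕ} (i : Fin d) (c : E d) : E d :=
  WithLp.toLp 2 (Function.update c.ofLp i (-(c i)))

/-- The body with `d` coordinate mirrors. -/
def tlc {N d : ℕ} (Φ : E d ≃L[ℝ] E d) (K : Set (E (N + d))) : Set (E (N + d)) :=
  {p | app (fst p) (Φ (ab (snd p))) ∈ K}

/-- Bodies with coordinate mirrors in the second variable and sections in `X`. -/
def Fl {N d : ℕ} (X : Set (E N) → Prop) (K : Set (E (N + d))) : Prop :=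
  Body K ∧ (∀ i x c, app x c ∈ K → app x (flip i c) ∈ K) ∧
  ∀ y, (interior (sec K y)).Nonempty → X (sec K y)

end Pool.Agent.Lib.MP_1dedaf_gt.RF

/-!
# MP_1dedaf_gt, RF, row 1: coordinates of the chamber
-/

set_option autoImplicit false

open MeasureTheory Set Filter Topology
open scoped ENNReal NNReal Pointwise

namespace Pool.Agent.Lib.MP_1dedaf_gt.RF

open Pool.Agent.Lib.MP_1dedaf_gt.SC
open Pool.Agent.Lib.MP_1dedaf_gt.EG
open Pool.Agent.Lib.MP_1dedaf_gt.BL

section Grp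

variable {d : ℕ} {G : Subgroup (E d ≃ₗᵢ[ℝ] E d)} {α : Fin d → E d}

/-- The inner products with the normals. -/
private noncomputable def rf1_lin (α : Fin d → E d) : E d →ₗ[ℝ] E d where
  toFun y := WithLp.toLp 2 (fun i => (inner ℝ y (α i) : ℝ))
  map_add' y y' := by
    ext i
    show (inner ℝ (y + y') (α i) : ℝ) = inner ℝ y (α i) + inner ℝ y' (α i)
    rw [inner_add_left]
  map_smul' a y := by
    ext i
    show (inner ℝ (a • y) (α i) : ℝ) = a * inner ℝ y (α i)
    rw [real_inner_smul_left]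

private lemma rf1_lin_apply (α : Fin d → E d) (y : E d) (i : Fin d) :
    rf1_lin α y i = inner ℝ y (α i) := rfl

private lemma rf1_span (h : LinearIndependent ℝ α) : Submodule.span ℝ (range α) = ⊤ :=
  h.span_eq_top_of_card_eq_finrank' (by simp)

private lemma rf1_inj (h : LinearIndependent ℝ α) : Function.Injective (rf1_lin α) := by
  rw [injective_iff_map_eq_zero]
  intro y hy
  have h1 : ∀ i, (inner ℝ y (α i) : ℝ) = 0 := fun i => by
    rw [← rf1_lin_apply, hy]
    rfl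
  have h2 : ∀ v ∈ Submodule.span ℝ (range α), (inner ℝ y v : ℝ) = 0 := by
    intro v hv
    induction hv using Submodule.span_induction with
    | mem v hv =>
      obtain ⟨i, rfl⟩ := hv
      exact h1 i
    | zero => exact inner_zero_right _
    | add v w _ _ hv hw => rw [inner_add_right, hv, hw, add_zero]
    | smul a v _ hv => rw [real_inner_smul_right, hv, mul_zero]
  have h3 := h2 y (by rw [rf1_span h]; trivial)
  exact inner_self_eq_zero.1 h3

/-- Nonnegative coefficients: the chamber of an obtuse basis. -/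
private lemma rf1_pos (hi : LinearIndependent ℝ α)
    (ho : ∀ i j, i ≠ j → (inner ℝ (α i) (α j) : ℝ) ≤ 0) (a : Fin d → ℝ)
    (hv : ∀ i, 0 ≤ (inner ℝ (∑ j, a j • α j) (α i) : ℝ)) (i : Fin d) : 0 ≤ a i := by
  have e : ∀ j, a j = max (a j) 0 - max (-a j) 0 := fun j => by
    rcases le_total 0 (a j) with h | h
    · rw [max_eq_left h, max_eq_right (by linarith)]
      ring
    · rw [max_eq_right h, max_eq_left (by linarith)]
      ring
  set m : E d := ∑ j, max (-a j) 0 • α j with hm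
  have e2 : ∑ j, a j • α j = ∑ j, max (a j) 0 • α j - m := by
    rw [hm, ← Finset.sum_sub_distrib]
    refine Finset.sum_congr rfl fun j _ => ?_
    rw [← sub_smul, ← e j]
  have h1 : 0 ≤ (inner ℝ (∑ j, a j • α j) m : ℝ) := by
    rw [hm, inner_sum]
    refine Finset.sum_nonneg fun j _ => ?_
    rw [real_inner_smul_right]
    exact mul_nonneg (le_max_right _ _) (hv j)
  have h2 : (inner ℝ (∑ j, max (a j) 0 • α j) m : ℝ) ≤ 0 := by
    rw [hm, sum_inner]
    refine Finset.sum_nonpos fun j _ => ?_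
    rw [inner_sum]
    refine Finset.sum_nonpos fun k _ => ?_
    rw [real_inner_smul_left, real_inner_smul_right]
    rcases eq_or_ne j k with h | h
    · subst h
      rcases le_total 0 (a j) with h3 | h3
      · rw [max_eq_right (show -a j ≤ 0 by linarith)]
        simp
      · rw [max_eq_right h3]
        simp
    · have h3 := ho j k h
      have h4 : 0 ≤ max (a j) 0 := le_max_right _ _
      have h5 : 0 ≤ max (-a k) 0 := le_max_right _ _
      exact mul_nonpos_of_nonneg_of_nonpos h4 (mul_nonpos_of_nonneg_of_nonpos h5 h3)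
  have h3 : (inner ℝ m m : ℝ) ≤ 0 := by
    rw [e2, inner_sub_left] at h1
    linarith
  have h4 : m = 0 := inner_self_eq_zero.1 (le_antisymm h3 real_inner_self_nonneg)
  have h5 := Fintype.linearIndependent_iff.1 hi (fun j => max (-a j) 0) (by rw [← hm]; exact h4) i
  have h6 : -a i ≤ 0 := by
    have h7 := le_max_left (-a i) 0
    have h8 : max (-a i) 0 = 0 := h5
    linarith
  linarith

/-! ROW 1: coordinates of the chamber (needs only `indep` and `obt`). -/
theorem exists_cd (h : Refl G α) : ∃ Φ Ψ : E d ≃L[ℝ] E d, Cd α Φ Ψ := by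
  have hinj := rf1_inj h.indep
  have hspan := rf1_span h.indep
  let b : Module.Basis (Fin d) ℝ (E d) := Module.Basis.mk h.indep hspan.ge
  have hb : ∀ i, b i = α i := fun i => by
    simp only [b, Module.Basis.mk_apply]
  let A : E d ≃ₗ[ℝ] E d := LinearEquiv.ofInjectiveEndo (rf1_lin α) hinj
  have hA : ∀ y i, A y i = inner ℝ y (α i) := fun y i => rfl
  let Φ : E d ≃L[ℝ] E d := A.symm.toContinuousLinearEquiv
  let B : E d ≃ₗ[ℝ] E d := b.equivFun.trans (WithLp.linearEquiv 2 ℝ (Fin d → ℝ)).symm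
  have hB : ∀ v i, B v i = b.equivFun v i := fun v i => rfl
  let Ψ : E d ≃L[ℝ] E d := B.toContinuousLinearEquiv
  have hΦ : ∀ c i, (inner ℝ (Φ c) (α i) : ℝ) = c i := fun c i => by
    have h1 := hA (A.symm c) i
    rw [LinearEquiv.apply_symm_apply] at h1
    exact h1.symm
  have hΨ : ∀ v, v = ∑ i, Ψ v i • α i := fun v => by
    have h1 := b.sum_equivFun v
    simp only [hb] at h1
    exact h1.symm
  refine ⟨Φ, Ψ, hΦ, ?_, ?_, hΨ⟩
  · intro c v
    conv_lhs => rw [hΨ v]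
    rw [inner_sum]
    have e : (inner ℝ c (Ψ v) : ℝ) = ∑ i, Ψ v i * c i := by
      rw [PiLp.inner_apply]
      rfl
    rw [e]
    refine Finset.sum_congr rfl fun i _ => ?_
    rw [real_inner_smul_right, hΦ]
  · intro v hv i
    refine rf1_pos h.indep h.obt (fun j => Ψ v j) (fun j => ?_) i
    rw [← hΨ v]
    exact hv j

theorem mem_cham_iff {Φ Ψ : E d ≃L[ℝ] E d} (hc : Cd α Φ Ψ) (c : E d) :
    Φ c ∈ cham α ↔ ∀ i, 0 ≤ c i := by
  constructor
  · intro h i
    have h1 := h i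
    rw [hc.inn] at h1
    exact h1
  · intro h i
    rw [hc.inn]
    exact h i

theorem ab_cham {Φ Ψ : E d ≃L[ℝ] E d} (hc : Cd α Φ Ψ) (c : E d) : Φ (ab c) ∈ cham α := by
  rw [mem_cham_iff hc]
  intro i
  exact abs_nonneg (c i)

/-- A point of the chamber is `Φ c` with `c ≥ 0`, so `ab c = c`. -/
theorem exists_ab {Φ Ψ : E d ≃L[ℝ] E d} (hc : Cd α Φ Ψ) {y : E d} (hy : y ∈ cham α) :
    ∃ c, (∀ i, 0 ≤ c i) ∧ ab c = c ∧ Φ c = y := by
  have h1 : Φ (Φ.symm y) = y := Φ.apply_symm_apply y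
  have h2 : ∀ i, 0 ≤ Φ.symm y i := by
    rw [← mem_cham_iff hc, h1]
    exact hy
  refine ⟨Φ.symm y, h2, ?_, h1⟩
  ext i
  exact abs_of_nonneg (h2 i)

end Grp

end Pool.Agent.Lib.MP_1dedaf_gt.RF

/-!
# MP_1dedaf_gt, RF, row 2: the group
-/

set_option autoImplicit false

open MeasureTheory Set Filter Topology
open scoped ENNReal NNReal Pointwise

namespace Pool.Agent.Lib.MP_1dedaf_gt.RF

open Pool.Agent.Lib.MP_1dedaf_gt.SC
open Pool.Agent.Lib.MP_1dedaf_gt.EG
open Pool.Agent.Lib.MP_1dedaf_gt.BL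

variable {d : ℕ} {G : Subgroup (E d ≃ₗᵢ[ℝ] E d)} {α : Fin d → E d}

lemma rf2_ne (h : Refl G α) (i : Fin d) : 0 < (inner ℝ (α i) (α i) : ℝ) :=
  real_inner_self_pos.mpr (h.indep.ne_zero i)

/-- A point of the open chamber. -/
lemma rf2_v0 (h : Refl G α) : ∃ v : E d, ∀ i, 0 < (inner ℝ v (α i) : ℝ) := by
  obtain ⟨Φ, Ψ, hc⟩ := exists_cd h
  refine ⟨Φ (WithLp.toLp 2 fun _ => 1), fun i => ?_⟩
  rw [hc.inn]
  exact one_pos

/-! ROW 2: the group. -/
theorem int_cham (h : Refl G α) : interior (cham α) = {y | ∀ i, 0 < (inner ℝ y (α i) : ℝ)} := by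
  apply Subset.antisymm
  · intro y hy i
    have h1 : Tendsto (fun δ : ℝ => y - δ • α i) (𝓝[>] 0) (𝓝 y) := by
      have h2 : Tendsto (fun δ : ℝ => y - δ • α i) (𝓝 0) (𝓝 (y - (0 : ℝ) • α i)) :=
        (Continuous.tendsto (by fun_prop) _)
      rw [zero_smul, sub_zero] at h2
      exact h2.mono_left nhdsWithin_le_nhds
    have h3 := (h1.eventually (isOpen_interior.mem_nhds hy)).and self_mem_nhdsWithin
    obtain ⟨δ, hδ, hδ0⟩ := h3.exists
    have h4 := interior_subset hδ i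
    rw [inner_sub_left, real_inner_smul_left] at h4
    have h5 := mul_pos (mem_Ioi.mp hδ0) (rf2_ne h i)
    linarith
  · refine interior_maximal (fun y hy i => (hy i).le) ?_
    rw [setOf_forall]
    exact isOpen_iInter_of_finite fun i => isOpen_lt continuous_const (by fun_prop)

/-- The best element moves `y` into the chamber. -/
lemma rf2_best (h : Refl G α) {y v : E d} (hv : ∀ i, 0 < (inner ℝ v (α i) : ℝ))
    {g : E d ≃ₗᵢ[ℝ] E d} (hg : g ∈ G)
    (hm : ∀ g' ∈ G, (inner ℝ (g' y) v : ℝ) ≤ inner ℝ (g y) v) : g y ∈ cham α := by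
  intro i
  obtain ⟨s, hs, hsy⟩ := h.ref i
  have h1 := hm (s * g) (G.mul_mem hs hg)
  have h2 : (s * g) y = s (g y) := rfl
  rw [h2, hsy, inner_sub_left, real_inner_smul_left, real_inner_comm v (α i)] at h1
  have h3 := hv i
  have h4 := rf2_ne h i
  by_contra hcon
  push Not at hcon
  have h5 : 2 * inner ℝ (g y) (α i) / inner ℝ (α i) (α i) < 0 :=
    div_neg_of_neg_of_pos (by linarith) h4
  have h6 := mul_neg_of_neg_of_pos h5 h3
  linarith

/-- There is a best element. -/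
lemma rf2_max (h : Refl G α) (y v : E d) :
    ∃ g ∈ G, ∀ g' ∈ G, (inner ℝ (g' y) v : ℝ) ≤ inner ℝ (g y) v := by
  haveI := h.fin
  obtain ⟨g, hg⟩ := Finite.exists_max fun g : G => (inner ℝ ((g : E d ≃ₗᵢ[ℝ] E d) y) v : ℝ)
  exact ⟨g, g.2, fun g' hg' => hg ⟨g', hg'⟩⟩

theorem cover (h : Refl G α) (y : E d) : ∃ g ∈ G, g y ∈ cham α := by
  obtain ⟨v, hv⟩ := rf2_v0 h
  obtain ⟨g, hg, hm⟩ := rf2_max h y v
  exact ⟨g, hg, rf2_best h hv hg hm⟩

/-- The case of the open chamber. -/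
lemma rf2_dom (h : Refl G α) {g : E d ≃ₗᵢ[ℝ] E d} (hg : g ∈ G) {y v : E d}
    (hy : ∀ i, 0 < (inner ℝ y (α i) : ℝ)) (hv : ∀ i, 0 < (inner ℝ v (α i) : ℝ)) :
    (inner ℝ (g y) v : ℝ) ≤ inner ℝ y v := by
  obtain ⟨k, hk, hm⟩ := rf2_max h y v
  have hky : k y ∈ cham α := rf2_best h hv hk hm
  have h1 : k = 1 := by
    by_contra hne
    have hd := h.disj k hk hne
    have ho : IsOpen (k '' interior (cham α)) := by
      have h2 : k '' interior (cham α) = k.symm ⁻¹' interior (cham α) := by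
        ext z
        constructor
        · rintro ⟨w, hw, rfl⟩
          simpa using hw
        · intro hz
          exact ⟨k.symm z, hz, by simp⟩
      rw [h2]
      exact isOpen_interior.preimage k.symm.continuous
    have hmem : k y ∈ k '' interior (cham α) :=
      mem_image_of_mem _ (by rw [int_cham h]; exact hy)
    have h3 : Tendsto (fun ε : ℝ => k y + ε • v) (𝓝[>] 0) (𝓝 (k y)) := by
      have h4 : Tendsto (fun ε : ℝ => k y + ε • v) (𝓝 0) (𝓝 (k y + (0 : ℝ) • v)) :=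
        (Continuous.tendsto (by fun_prop) _)
      rw [zero_smul, add_zero] at h4
      exact h4.mono_left nhdsWithin_le_nhds
    obtain ⟨ε, hε, hε0⟩ := ((h3.eventually (ho.mem_nhds hmem)).and self_mem_nhdsWithin).exists
    refine Set.disjoint_left.mp hd ?_ hε
    rw [int_cham h]
    intro i
    rw [inner_add_left, real_inner_smul_left]
    have h5 := mul_pos (mem_Ioi.mp hε0) (hv i)
    have h6 := hky i
    linarith
  have h7 := hm g hg
  rw [h1] at h7
  exact h7

/-- Two points of the chamber: the identity is the best element of the group. -/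
theorem dom (h : Refl G α) {g : E d ≃ₗᵢ[ℝ] E d} (hg : g ∈ G) {y v : E d} (hy : y ∈ cham α)
    (hv : v ∈ cham α) : (inner ℝ (g y) v : ℝ) ≤ inner ℝ y v := by
  obtain ⟨w, hw⟩ := rf2_v0 h
  have hpos : ∀ z ∈ cham α, ∀ ε : ℝ, 0 < ε → ∀ i, 0 < (inner ℝ (z + ε • w) (α i) : ℝ) := by
    intro z hz ε hε i
    rw [inner_add_left, real_inner_smul_left]
    have h1 := mul_pos hε (hw i)
    have h2 := hz i
    linarith
  have h1 : Tendsto (fun ε : ℝ => (inner ℝ (g (y + ε • w)) (v + ε • w) : ℝ)) (𝓝[>] 0)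
      (𝓝 (inner ℝ (g y) v)) := by
    have hgc : Continuous g := g.continuous
    have h2 : Tendsto (fun ε : ℝ => (inner ℝ (g (y + ε • w)) (v + ε • w) : ℝ)) (𝓝 0)
        (𝓝 (inner ℝ (g (y + (0 : ℝ) • w)) (v + (0 : ℝ) • w))) :=
      (Continuous.tendsto (by fun_prop) _)
    rw [zero_smul, add_zero, add_zero] at h2
    exact h2.mono_left nhdsWithin_le_nhds
  have h2 : Tendsto (fun ε : ℝ => (inner ℝ (y + ε • w) (v + ε • w) : ℝ)) (𝓝[>] 0)
      (𝓝 (inner ℝ y v)) := by
    have h3 : Tendsto (fun ε : ℝ => (inner ℝ (y + ε • w) (v + ε • w) : ℝ)) (𝓝 0)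
        (𝓝 (inner ℝ (y + (0 : ℝ) • w) (v + (0 : ℝ) • w))) :=
      (Continuous.tendsto (by fun_prop) _)
    rw [zero_smul, add_zero, add_zero] at h3
    exact h3.mono_left nhdsWithin_le_nhds
  refine le_of_tendsto_of_tendsto h1 h2 ?_
  filter_upwards [self_mem_nhdsWithin] with ε hε
  exact rf2_dom h hg (hpos y hy ε hε) (hpos v hv ε hε)

end Pool.Agent.Lib.MP_1dedaf_gt.RF

/-!
# MP_1dedaf_gt, RF, row 3: the body with coordinate mirrors
-/

set_option autoImplicit false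

open MeasureTheory Set Filter Topology
open scoped ENNReal NNReal Pointwise

namespace Pool.Agent.Lib.MP_1dedaf_gt.RF

open Pool.Agent.Lib.MP_1dedaf_gt.SC
open Pool.Agent.Lib.MP_1dedaf_gt.EG
open Pool.Agent.Lib.MP_1dedaf_gt.BL

section R3

variable {N d : ℕ} {G : Subgroup (E d ≃ₗᵢ[ℝ] E d)} {α : Fin d → E d} {Φ Ψ : E d ≃L[ℝ] E d}

theorem tlc_mem (K : Set (E (N + d))) (x : E N) (c : E d) :
    app x c ∈ tlc Φ K ↔ app x (Φ (ab c)) ∈ K := by
  show app (fst (app x c)) (Φ (ab (snd (app x c)))) ∈ K ↔ _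
  rw [fst_app, snd_app]

theorem sec_tlc (K : Set (E (N + d))) (c : E d) : sec (tlc Φ K) c = sec K (Φ (ab c)) := by
  ext x
  exact tlc_mem K x c

lemma rf3_ab_apply (c : E d) (i : Fin d) : ab c i = |c i| := rfl

lemma rf3_ab_flip (i : Fin d) (c : E d) : ab (flip i c) = ab c := by
  ext j
  show |Function.update c.ofLp i (-(c i)) j| = |c j|
  by_cases h : j = i
  · subst h
    rw [Function.update_self, abs_neg]
  · rw [Function.update_of_ne h]

theorem tlc_flip (K : Set (E (N + d))) (i : Fin d) (x : E N) (c : E d)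
    (h : app x c ∈ tlc Φ K) : app x (flip i c) ∈ tlc Φ K := by
  rw [tlc_mem] at h ⊢
  rwa [rf3_ab_flip]

lemma rf3_norm_ab (c : E d) : ‖ab c‖ = ‖c‖ := by
  rw [EuclideanSpace.norm_eq, EuclideanSpace.norm_eq]
  congr 1
  refine Finset.sum_congr rfl fun i _ => ?_
  rw [rf3_ab_apply, Real.norm_eq_abs, abs_abs, Real.norm_eq_abs]

lemma rf3_cont_ab : Continuous (ab : E d → E d) := by
  unfold ab
  fun_prop

theorem tlc_comp {K : Set (E (N + d))} (hK : IsCompact K) : IsCompact (tlc Φ K) := by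
  have hc : Continuous fun p : E (N + d) => app (fst p) (Φ (ab (snd p))) :=
    cont_app.comp (cont_fst.prodMk (Φ.continuous.comp (rf3_cont_ab.comp cont_snd)))
  refine Metric.isCompact_of_isClosed_isBounded (hK.isClosed.preimage hc) ?_
  obtain ⟨R₁, hR₁⟩ := (hK.image cont_fst).isBounded.exists_norm_le
  obtain ⟨R₂, hR₂⟩ := (hK.image (Φ.symm.continuous.comp cont_snd)).isBounded.exists_norm_le
  have hA : IsCompact (Metric.closedBall (0 : E N) R₁ ×ˢ Metric.closedBall (0 : E d) R₂) :=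
    (isCompact_closedBall _ _).prod (isCompact_closedBall _ _)
  refine (hA.image cont_app).isBounded.subset ?_
  intro p hp
  have h1 : app (fst p) (Φ (ab (snd p))) ∈ K := hp
  have h2 := hR₁ _ (mem_image_of_mem _ h1)
  have h3 := hR₂ _ (mem_image_of_mem _ h1)
  rw [fst_app] at h2
  rw [Function.comp_apply, snd_app, Φ.symm_apply_apply, rf3_norm_ab] at h3
  refine ⟨(fst p, snd p), ⟨?_, ?_⟩, app_eta p⟩
  · rw [mem_closedBall_zero_iff]
    exact h2
  · rw [mem_closedBall_zero_iff]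
    exact h3

lemma rf3_inv (g : E d ≃ₗᵢ[ℝ] E d) (y : E d) : g (g⁻¹ y) = y := by
  show (g * g⁻¹) y = y
  rw [mul_inv_cancel]
  rfl

lemma rf3_inner (g : E d ≃ₗᵢ[ℝ] E d) (y v : E d) :
    (inner ℝ y (g v) : ℝ) = inner ℝ (g⁻¹ y) v := by
  conv_lhs => rw [← rf3_inv g y]
  rw [LinearIsometryEquiv.inner_map_map]

lemma rf3_supp_le {K : Set (E (N + d))} (hK : IsCompact K) (hne : K.Nonempty)
    (hi : Inv G K) {g : E d ≃ₗᵢ[ℝ] E d} (hg : g ∈ G) (u : E N) (v : E d) :
    supp K (app u (g v)) ≤ supp K (app u v) := by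
  obtain ⟨p, hp, h1⟩ := supp_attained hK hne (app u (g v))
  rw [← h1, ← app_eta p, inner_app, rf3_inner, ← inner_app]
  refine le_supp hK _ (hi g⁻¹ (G.inv_mem hg) _ _ ?_)
  rw [app_eta]
  exact hp

/-- The support function of an invariant body. -/
theorem supp_inv (h : Refl G α) {K : Set (E (N + d))} (hK : IsCompact K) (hne : K.Nonempty)
    (hi : Inv G K) {g : E d ≃ₗᵢ[ℝ] E d} (hg : g ∈ G) (u : E N) (v : E d) :
    supp K (app u (g v)) = supp K (app u v) := by
  refine le_antisymm (rf3_supp_le hK hne hi hg u v) ?_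
  have h1 := rf3_supp_le hK hne hi (G.inv_mem hg) u (g v)
  have h2 : g⁻¹ (g v) = v := by
    show (g⁻¹ * g) v = v
    rw [inv_mul_cancel]
    rfl
  rwa [h2] at h1

/-- Smaller chamber coordinates. -/
theorem anti (h : Refl G α) (hc : Cd α Φ Ψ) {K : Set (E (N + d))} (hK : Convex ℝ K)
    (hKc : IsCompact K) (hi : Inv G K) {x : E N} {c c' : E d} (h0 : ∀ i, 0 ≤ c' i)
    (h1 : ∀ i, c' i ≤ c i) (hx : app x (Φ c) ∈ K) : app x (Φ c') ∈ K := by
  refine r9_sep hK hKc ⟨_, hx⟩ fun w _ => ?_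
  obtain ⟨g, hg, hgv⟩ := cover h (snd w)
  have h2 : Φ c' ∈ cham α := fun i => by
    rw [hc.inn]
    exact h0 i
  have h3 : (inner ℝ (Φ c') (snd w) : ℝ) ≤ inner ℝ (Φ c') (g (snd w)) := by
    rw [← LinearIsometryEquiv.inner_map_map g (Φ c') (snd w)]
    exact dom h hg h2 hgv
  have h4 : (inner ℝ (Φ c') (g (snd w)) : ℝ) ≤ inner ℝ (Φ c) (g (snd w)) := by
    rw [hc.dual, hc.dual, PiLp.inner_apply, PiLp.inner_apply]
    refine Finset.sum_le_sum fun i _ => ?_
    have h5 : (inner ℝ (c' i) (Ψ (g (snd w)) i) : ℝ) = c' i * Ψ (g (snd w)) i := by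
      rw [real_inner_eq_re_inner]
      simp [mul_comm]
    have h6 : (inner ℝ (c i) (Ψ (g (snd w)) i) : ℝ) = c i * Ψ (g (snd w)) i := by
      rw [real_inner_eq_re_inner]
      simp [mul_comm]
    rw [h5, h6]
    exact mul_le_mul_of_nonneg_right (h1 i) (hc.pos _ hgv i)
  have h7 := le_supp hKc (app (fst w) (g (snd w))) hx
  rw [supp_inv h hKc ⟨_, hx⟩ hi hg, app_eta, inner_app] at h7
  rw [← app_eta w, inner_app, app_eta]
  linarith

theorem tlc_conv (h : Refl G α) (hc : Cd α Φ Ψ) {K : Set (E (N + d))} (hK : Convex ℝ K)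
    (hKc : IsCompact K) (hi : Inv G K) : Convex ℝ (tlc Φ K) := by
  intro p hp q hq a b ha hb hab
  rw [← app_eta p] at hp ⊢
  rw [← app_eta q] at hq ⊢
  rw [tlc_mem] at hp hq
  rw [app_comb, tlc_mem]
  have h1 := hK hp hq ha hb hab
  rw [app_comb, ← map_smul, ← map_smul, ← map_add] at h1
  refine anti h hc hK hKc hi (fun i => ?_) (fun i => ?_) h1
  · rw [rf3_ab_apply]
    exact abs_nonneg _
  · rw [rf3_ab_apply]
    show |a * snd p i + b * snd q i| ≤ a * |snd p i| + b * |snd q i|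
    refine (abs_add_le _ _).trans ?_
    rw [abs_mul, abs_mul, abs_of_nonneg ha, abs_of_nonneg hb]

end R3

end Pool.Agent.Lib.MP_1dedaf_gt.RF

/-!
# MP_1dedaf_gt, RF, row 4a: volumes in `R^d`
-/

set_option autoImplicit false

open MeasureTheory Set Filter Topology
open scoped ENNReal NNReal Pointwise

namespace Pool.Agent.Lib.MP_1dedaf_gt.RF

open Pool.Agent.Lib.MP_1dedaf_gt.SC
open Pool.Agent.Lib.MP_1dedaf_gt.EG
open Pool.Agent.Lib.MP_1dedaf_gt.BL

/-- A hyperplane has volume zero. -/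
private lemma rf4a_null {d : ℕ} {a : E d} (ha : a ≠ 0) :
    volume {y : E d | (inner ℝ y a : ℝ) = 0} = 0 := by
  have h1 : {y : E d | (inner ℝ y a : ℝ) = 0} = (((ℝ ∙ a)ᗮ : Submodule ℝ (E d)) : Set (E d)) := by
    ext y
    rw [SetLike.mem_coe, Submodule.mem_orthogonal_singleton_iff_inner_left]
    rfl
  rw [h1]
  apply Measure.addHaar_submodule
  intro h2
  have h3 : a ∈ ((ℝ ∙ a)ᗮ : Submodule ℝ (E d)) := by
    rw [h2]
    trivial
  rw [Submodule.mem_orthogonal_singleton_iff_inner_left] at h3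
  exact ha (inner_self_eq_zero.1 h3)

private lemma rf4a_img {d : ℕ} (e : E d ≃ₗᵢ[ℝ] E d) {S : Set (E d)} (hS : MeasurableSet S) :
    volume (e '' S) = volume S := by
  have h1 : e '' S = e.symm ⁻¹' S := by
    ext y
    constructor
    · rintro ⟨x, hx, rfl⟩
      simpa using hx
    · intro hy
      exact ⟨e.symm y, hy, by simp⟩
  rw [h1]
  exact e.symm.measurePreserving.measure_preimage hS.nullMeasurableSet

private lemma rf4a_meas {d : ℕ} (e : E d ≃ₗᵢ[ℝ] E d) {S : Set (E d)} (hS : MeasurableSet S) :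
    MeasurableSet (e '' S) := by
  have h1 : e '' S = e.symm ⁻¹' S := by
    ext y
    constructor
    · rintro ⟨x, hx, rfl⟩
      simpa using hx
    · intro hy
      exact ⟨e.symm y, hy, by simp⟩
  rw [h1]
  exact e.symm.continuous.measurable hS

/-- A partition into congruent pieces. -/
private lemma rf4a_part {d : ℕ} {ι : Type*} [Fintype ι] (e : ι → E d ≃ₗᵢ[ℝ] E d) {D : Set (E d)}
    (hD : MeasurableSet D) (hdis : Pairwise (Function.onFun Disjoint fun i => e i '' D))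
    (hcov : volume (⋃ i, e i '' D)ᶜ = 0) {A : Set (E d)} (hA : MeasurableSet A)
    (hinv : ∀ i y, y ∈ A ↔ e i y ∈ A) :
    volume A = (Fintype.card ι : ℝ≥0∞) * volume (A ∩ D) := by
  have h1 : volume A = volume (A ∩ ⋃ i, e i '' D) := by
    apply le_antisymm _ (measure_mono inter_subset_left)
    calc volume A ≤ volume ((A ∩ ⋃ i, e i '' D) ∪ (⋃ i, e i '' D)ᶜ) := by
          apply measure_mono
          intro y hy
          by_cases h : y ∈ ⋃ i, e i '' D
          · exact Or.inl ⟨hy, h⟩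
          · exact Or.inr h
      _ ≤ volume (A ∩ ⋃ i, e i '' D) + volume (⋃ i, e i '' D)ᶜ := measure_union_le _ _
      _ = _ := by rw [hcov, add_zero]
  have h2 : A ∩ (⋃ i, e i '' D) = ⋃ i, e i '' (A ∩ D) := by
    ext y
    simp only [mem_inter_iff, mem_iUnion, mem_image]
    constructor
    · rintro ⟨hy, i, x, hx, rfl⟩
      exact ⟨i, x, ⟨(hinv i x).2 hy, hx⟩, rfl⟩
    · rintro ⟨i, x, ⟨hx, hxD⟩, rfl⟩
      exact ⟨(hinv i x).1 hx, i, x, hxD, rfl⟩
  rw [h1, h2, measure_iUnion (fun i j hij => (hdis hij).mono (image_mono inter_subset_right)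
    (image_mono inter_subset_right)) (fun i => rf4a_meas _ (hA.inter hD))]
  simp only [rf4a_img _ (hA.inter hD)]
  rw [tsum_fintype, Finset.sum_const, Finset.card_univ, nsmul_eq_mul]

/-- The sign changes. -/
private noncomputable def rf4a_sg {d : ℕ} (ε : Fin d → Bool) : E d ≃ₗᵢ[ℝ] E d :=
  LinearIsometryEquiv.piLpCongrRight 2
    (fun i => if ε i then LinearIsometryEquiv.refl ℝ ℝ else LinearIsometryEquiv.neg ℝ)

private lemma rf4a_sg_apply {d : ℕ} (ε : Fin d → Bool) (c : E d) (i : Fin d) :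
    rf4a_sg ε c i = if ε i then c i else - c i := by
  unfold rf4a_sg
  rw [LinearIsometryEquiv.piLpCongrRight_apply]
  by_cases h : ε i <;> simp [h]

private lemma rf4a_ab {d : ℕ} (ε : Fin d → Bool) (c : E d) : ab (rf4a_sg ε c) = ab c := by
  ext i
  show |rf4a_sg ε c i| = |c i|
  rw [rf4a_sg_apply]
  by_cases h : ε i <;> simp [h]

private lemma rf4a_cont_ab {d : ℕ} : Continuous (ab : E d → E d) := by
  apply (PiLp.continuous_toLp 2 _).comp
  exact continuous_pi fun i => ((EuclideanSpace.proj i : E d →L[ℝ] ℝ).continuous).abs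

private lemma rf4a_open {d : ℕ} : IsOpen {c : E d | ∀ i, 0 < c i} := by
  have h1 : {c : E d | ∀ i, 0 < c i} = ⋂ i, {c : E d | 0 < c i} := by
    ext c
    simp
  rw [h1]
  exact isOpen_iInter_of_finite fun i =>
    isOpen_lt continuous_const (EuclideanSpace.proj i : E d →L[ℝ] ℝ).continuous

/-- The coordinate mirrors. -/
private lemma rf4a_coord {d : ℕ} {B : Set (E d)} (hB : MeasurableSet B)
    (hinv : ∀ ε c, c ∈ B ↔ rf4a_sg ε c ∈ B) :
    volume B = ((2 ^ d : ℕ) : ℝ≥0∞) * volume (B ∩ {c : E d | ∀ i, 0 < c i}) := by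
  have h1 := rf4a_part (fun ε : Fin d → Bool => rf4a_sg ε) (D := {c : E d | ∀ i, 0 < c i})
    rf4a_open.measurableSet ?_ ?_ hB hinv
  · rw [h1]
    simp
  · intro ε ε' hne
    rw [Function.onFun, disjoint_left]
    rintro y ⟨x, hx, rfl⟩ ⟨x', hx', he⟩
    apply hne
    funext i
    have h2 : rf4a_sg ε' x' i = rf4a_sg ε x i := congrArg (fun y : E d => y i) he
    rw [rf4a_sg_apply, rf4a_sg_apply] at h2
    have h3 := hx i
    have h4 := hx' i
    by_cases a : ε i <;> by_cases b : ε' i <;> simp [a, b] at h2 ⊢ <;> linarith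
  · have h2 : (⋃ ε : Fin d → Bool, rf4a_sg ε '' {c : E d | ∀ i, 0 < c i})ᶜ ⊆
        ⋃ i : Fin d, {y : E d | (inner ℝ y (EuclideanSpace.single i (1 : ℝ)) : ℝ) = 0} := by
      intro c hc
      by_contra h3
      apply hc
      simp only [mem_iUnion, mem_setOf_eq, not_exists] at h3
      have h4 : ∀ i, c i ≠ 0 := by
        intro i h5
        apply h3 i
        rw [EuclideanSpace.inner_single_right]
        simp [h5]
      refine mem_iUnion.2 ⟨fun i => decide (0 < c i),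
        rf4a_sg (fun i => decide (0 < c i)) c, ?_, ?_⟩
      · intro i
        rw [rf4a_sg_apply]
        by_cases a : 0 < c i
        · simp [a]
        · have h5 : c i < 0 := lt_of_le_of_ne (not_lt.1 a) (h4 i)
          simp [a, h5]
      · ext i
        rw [rf4a_sg_apply, rf4a_sg_apply]
        by_cases a : 0 < c i <;> simp [a]
    refine measure_mono_null h2 (measure_iUnion_null fun i => rf4a_null ?_)
    intro h3
    have h4 := congrArg (fun y : E d => y i) h3
    simp at h4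

section Grp

variable {d : ℕ} {G : Subgroup (E d ≃ₗᵢ[ℝ] E d)} {α : Fin d → E d}

/-- The group. -/
private lemma rf4a_grp (h : Refl G α) [Fintype G] {A : Set (E d)} (hA : MeasurableSet A)
    (hi : ∀ g ∈ G, ∀ y ∈ A, g y ∈ A) :
    volume A = (Fintype.card G : ℝ≥0∞) * volume (A ∩ interior (cham α)) := by
  have hmap : ∀ (g g' : E d ≃ₗᵢ[ℝ] E d) (y : E d), (g * g') y = g (g' y) := fun g g' y => rfl
  apply rf4a_part (fun g : G => (g : E d ≃ₗᵢ[ℝ] E d)) isOpen_interior.measurableSet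
  · intro g g' hne
    rw [Function.onFun, disjoint_left]
    rintro y ⟨x, hx, rfl⟩ ⟨x', hx', he⟩
    have h1 : (g : E d ≃ₗᵢ[ℝ] E d)⁻¹ * (g' : E d ≃ₗᵢ[ℝ] E d) ∈ G :=
      G.mul_mem (G.inv_mem g.2) g'.2
    have h2 : (g : E d ≃ₗᵢ[ℝ] E d)⁻¹ * (g' : E d ≃ₗᵢ[ℝ] E d) ≠ 1 := by
      intro h3
      apply hne
      apply Subtype.ext
      exact (inv_mul_eq_one.1 h3)
    have h3 := disjoint_left.1 (h.disj _ h1 h2) hx
    apply h3
    refine ⟨x', hx', ?_⟩
    rw [hmap, he, ← hmap, inv_mul_cancel]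
    rfl
  · have h2 : (⋃ g : G, (g : E d ≃ₗᵢ[ℝ] E d) '' interior (cham α))ᶜ ⊆
        ⋃ g : G, (g : E d ≃ₗᵢ[ℝ] E d) '' (⋃ i : Fin d, {y : E d | (inner ℝ y (α i) : ℝ) = 0}) := by
      intro y hy
      obtain ⟨g, hg, hgy⟩ := cover h y
      have h3 : (g⁻¹ : E d ≃ₗᵢ[ℝ] E d) (g y) = y := by
        rw [← hmap, inv_mul_cancel]
        rfl
      refine mem_iUnion.2 ⟨⟨g⁻¹, G.inv_mem hg⟩, g y, ?_, h3⟩
      by_contra h4
      apply hy
      refine mem_iUnion.2 ⟨⟨g⁻¹, G.inv_mem hg⟩, g y, ?_, h3⟩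
      rw [int_cham h]
      intro i
      refine lt_of_le_of_ne (hgy i) ?_
      intro h5
      exact h4 (mem_iUnion.2 ⟨i, h5.symm⟩)
    refine measure_mono_null h2 (measure_iUnion_null fun g => ?_)
    have h3 : MeasurableSet (⋃ i : Fin d, {y : E d | (inner ℝ y (α i) : ℝ) = 0}) :=
      MeasurableSet.iUnion fun i =>
        (isClosed_eq (cont_inner (α i)) continuous_const).measurableSet
    rw [rf4a_img _ h3]
    exact measure_iUnion_null fun i => rf4a_null (h.indep.ne_zero i)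
  · exact hA
  · intro g y
    constructor
    · exact hi g g.2 y
    · intro hy
      have h3 := hi _ (G.inv_mem g.2) _ hy
      have h4 : ((g : E d ≃ₗᵢ[ℝ] E d)⁻¹ : E d ≃ₗᵢ[ℝ] E d) ((g : E d ≃ₗᵢ[ℝ] E d) y) = y := by
        rw [← hmap, inv_mul_cancel]
        rfl
      rwa [h4] at h3

/-! ROW 4a: volumes in `R^d`. -/
theorem vol_ab (h : Refl G α) {Φ Ψ : E d ≃L[ℝ] E d} (hc : Cd α Φ Ψ) :
    ∃ κ : ℝ≥0∞, κ ≠ 0 ∧ κ ≠ ∞ ∧ ∀ A : Set (E d), MeasurableSet A →
      (∀ g ∈ G, ∀ y ∈ A, g y ∈ A) → volume {c | Φ (ab c) ∈ A} = κ * volume A := by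
  haveI := h.fin
  haveI : Fintype G := Fintype.ofFinite G
  set δ : ℝ≥0∞ := ENNReal.ofReal |LinearMap.det ((Φ.symm : E d ≃L[ℝ] E d) : E d →ₗ[ℝ] E d)| with hδ
  have hδ0 : δ ≠ 0 := by
    rw [hδ, Ne, ENNReal.ofReal_eq_zero, not_le, abs_pos]
    exact (LinearEquiv.isUnit_det' Φ.symm.toLinearEquiv).ne_zero
  have hδ1 : δ ≠ ∞ := ENNReal.ofReal_ne_top
  have hG0 : (Fintype.card G : ℝ≥0∞) ≠ 0 := by
    rw [Ne, Nat.cast_eq_zero]
    exact Fintype.card_ne_zero
  have hG1 : (Fintype.card G : ℝ≥0∞) ≠ ∞ := ENNReal.natCast_ne_top _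
  have h20 : ((2 ^ d : ℕ) : ℝ≥0∞) ≠ 0 := by
    rw [Ne, Nat.cast_eq_zero]
    positivity
  refine ⟨((2 ^ d : ℕ) : ℝ≥0∞) * δ / (Fintype.card G : ℝ≥0∞), ?_, ?_, ?_⟩
  · exact ENNReal.div_ne_zero.2 ⟨mul_ne_zero h20 hδ0, hG1⟩
  · exact ENNReal.div_ne_top (ENNReal.mul_ne_top (ENNReal.natCast_ne_top _) hδ1) hG0
  intro A hA hi
  have hB : MeasurableSet {c : E d | Φ (ab c) ∈ A} :=
    (Φ.continuous.comp rf4a_cont_ab).measurable hA
  have h1 := rf4a_coord hB (fun ε c => by
    show Φ (ab c) ∈ A ↔ Φ (ab (rf4a_sg ε c)) ∈ A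
    rw [rf4a_ab])
  have h2 : {c : E d | Φ (ab c) ∈ A} ∩ {c : E d | ∀ i, 0 < c i} =
      Φ ⁻¹' (A ∩ interior (cham α)) := by
    ext c
    rw [int_cham h]
    simp only [mem_inter_iff, mem_setOf_eq, mem_preimage, hc.inn]
    constructor
    · rintro ⟨h3, h4⟩
      have h5 : ab c = c := by
        ext i
        show |c i| = c i
        exact abs_of_pos (h4 i)
      rw [h5] at h3
      exact ⟨h3, h4⟩
    · rintro ⟨h3, h4⟩
      have h5 : ab c = c := by
        ext i
        show |c i| = c i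
        exact abs_of_pos (h4 i)
      rw [h5]
      exact ⟨h3, h4⟩
  rw [h1, h2, Measure.addHaar_preimage_continuousLinearEquiv, ← hδ, rf4a_grp h hA hi]
  set v := volume (A ∩ interior (cham α))
  set m := (Fintype.card G : ℝ≥0∞)
  rw [ENNReal.div_eq_inv_mul]
  calc ((2 ^ d : ℕ) : ℝ≥0∞) * (δ * v) = (m⁻¹ * m) * (((2 ^ d : ℕ) : ℝ≥0∞) * (δ * v)) := by
        rw [ENNReal.inv_mul_cancel hG0 hG1, one_mul]
    _ = _ := by ring

end Grp

end Pool.Agent.Lib.MP_1dedaf_gt.RF

/-!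
# MP_1dedaf_gt, RF, row 4b: the volume of `tlc`
-/

set_option autoImplicit false

open MeasureTheory Set Filter Topology
open scoped ENNReal NNReal Pointwise

namespace Pool.Agent.Lib.MP_1dedaf_gt.RF

open Pool.Agent.Lib.MP_1dedaf_gt.SC
open Pool.Agent.Lib.MP_1dedaf_gt.EG
open Pool.Agent.Lib.MP_1dedaf_gt.BL

section Body

variable {N d : ℕ} {G : Subgroup (E d ≃ₗᵢ[ℝ] E d)} {α : Fin d → E d} {Φ Ψ : E d ≃L[ℝ] E d}

private lemma rf4b_cont_ab : Continuous (ab : E d → E d) := by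
  apply (PiLp.continuous_toLp 2 _).comp
  exact continuous_pi fun i => ((EuclideanSpace.proj i : E d →L[ℝ] ℝ).continuous).abs

private lemma rf4b_meas (Φ : E d ≃L[ℝ] E d) {K : Set (E (N + d))} (hK : MeasurableSet K) :
    MeasurableSet (tlc Φ K) := by
  have h1 : Continuous fun p : E (N + d) => app (fst p) (Φ (ab (snd p))) :=
    cont_app.comp (cont_fst.prodMk (Φ.continuous.comp (rf4b_cont_ab.comp cont_snd)))
  exact h1.measurable hK

/-- Fubini, the second variable inside. -/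
private lemma rf4b_vol {K : Set (E (N + d))} (hK : MeasurableSet K) :
    volume K = ∫⁻ x : E N, volume {y : E d | app x y ∈ K} := by
  have h1 := (mp_app N d).measure_preimage hK.nullMeasurableSet
  have h2 : MeasurableSet ((fun p : E N × E d => app p.1 p.2) ⁻¹' K) := cont_app.measurable hK
  rw [← h1, Measure.prod_apply h2]
  rfl

/-! ROW 4b: volumes. -/
theorem vol_tlc (h : Refl G α) (hc : Cd α Φ Ψ) : ∃ κ : ℝ≥0∞, κ ≠ 0 ∧ κ ≠ ∞ ∧
    ∀ K : Set (E (N + d)), MeasurableSet K → Inv G K → volume (tlc Φ K) = κ * volume K := by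
  obtain ⟨κ, h0, h1, hκ⟩ := vol_ab h hc
  refine ⟨κ, h0, h1, fun K hK hi => ?_⟩
  rw [rf4b_vol (rf4b_meas Φ hK), rf4b_vol hK]
  have hm : Measurable fun x : E N => volume {y : E d | app x y ∈ K} := by
    have h2 : MeasurableSet ((fun p : E N × E d => app p.1 p.2) ⁻¹' K) := cont_app.measurable hK
    exact measurable_measure_prodMk_left h2
  rw [← lintegral_const_mul κ hm]
  apply lintegral_congr
  intro x
  have hA : MeasurableSet {y : E d | app x y ∈ K} := by
    have h3 : Continuous fun y : E d => app x y := cont_app.comp (continuous_const.prodMk continuous_id)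
    exact h3.measurable hK
  rw [← hκ _ hA (fun g hg y hy => hi g hg x y hy)]
  congr 1
  ext c
  show app (fst (app x c)) (Φ (ab (snd (app x c)))) ∈ K ↔ app x (Φ (ab c)) ∈ K
  rw [fst_app, snd_app]

end Body

end Pool.Agent.Lib.MP_1dedaf_gt.RF

/-!
# MP_1dedaf_gt, RF, row 5: the inclusion
-/

set_option autoImplicit false

open MeasureTheory Set Filter Topology
open scoped ENNReal NNReal Pointwise

namespace Pool.Agent.Lib.MP_1dedaf_gt.RF

open Pool.Agent.Lib.MP_1dedaf_gt.SC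
open Pool.Agent.Lib.MP_1dedaf_gt.EG
open Pool.Agent.Lib.MP_1dedaf_gt.BL

section Body

variable {N d : ℕ} {G : Subgroup (E d ≃ₗᵢ[ℝ] E d)} {α : Fin d → E d} {Φ Ψ : E d ≃L[ℝ] E d}

lemma rf5_norm (u : E N) (v w : E d) (h : ‖v‖ = ‖w‖) : ‖app u v‖ = ‖app u w‖ := by
  have h1 : ‖app u v‖ ^ 2 = ‖app u w‖ ^ 2 := by
    rw [← real_inner_self_eq_norm_sq, ← real_inner_self_eq_norm_sq, inner_app, inner_app,
      real_inner_self_eq_norm_sq v, real_inner_self_eq_norm_sq w, h]
  exact (pow_left_inj₀ (norm_nonneg _) (norm_nonneg _) two_ne_zero).1 h1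

/-- An isometry in the scalar product. -/
lemma rf5_inner (g : E d ≃ₗᵢ[ℝ] E d) (y v : E d) :
    (inner ℝ (g y) v : ℝ) = inner ℝ y (g⁻¹ v) := by
  have h1 : g (g⁻¹ v) = v := g.apply_symm_apply v
  calc (inner ℝ (g y) v : ℝ) = inner ℝ (g y) (g (g⁻¹ v)) := by rw [h1]
    _ = inner ℝ y (g⁻¹ v) := g.inner_map_map _ _

theorem inv_logC (h : Refl G α) {t : ℝ} {K C : Set (E (N + d))} (hK : Body K) (hC : Body C)
    (iK : Inv G K) (iC : Inv G C) : Inv G (logC t K C) := by
  intro g hg x y hxy p hp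
  rw [← app_eta p] at hp ⊢
  have hg' : g⁻¹ ∈ G := G.inv_mem hg
  have h1 : ‖app (fst p) (g⁻¹ (snd p))‖ = 1 := by
    rw [rf5_norm (fst p) (g⁻¹ (snd p)) (snd p) (LinearIsometryEquiv.norm_map _ _)]
    exact hp
  have h2 := hxy _ h1
  have hnK : K.Nonempty := hK.int.mono interior_subset
  have hnC : C.Nonempty := hC.int.mono interior_subset
  rw [supp_inv h hK.comp hnK iK hg', supp_inv h hC.comp hnC iC hg', inner_app, ← rf5_inner] at h2
  rw [inner_app]
  exact h2

lemma rf5_zero : ab (0 : E d) = 0 := by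
  ext i
  show |(0 : E d) i| = 0
  simp

lemma rf5_zero_mem {K : Set (E (N + d))} (h0 : (0 : E (N + d)) ∈ K) :
    (0 : E (N + d)) ∈ tlc Φ K := by
  rw [← app_zero, tlc_mem, rf5_zero, map_zero, app_zero]
  exact h0

/-- The support function of `tlc Φ K` at signed chamber coordinates. -/
lemma rf5_supp (h : Refl G α) (hc : Cd α Φ Ψ) {K : Set (E (N + d))} (hK : Body K)
    (iK : Inv G K) (h0 : (0 : E (N + d)) ∈ K) {g : E d ≃ₗᵢ[ℝ] E d} (hg : g ∈ G) {v : E d}
    (u : E N) {a : E d} (ha : ∀ i, |a i| = Ψ (g v) i) :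
    supp (tlc Φ K) (app u a) ≤ supp K (app u v) := by
  apply csSup_le (Set.Nonempty.image _ ⟨0, rf5_zero_mem h0⟩)
  rintro _ ⟨q, hq, rfl⟩
  show inner ℝ q (app u a) ≤ _
  rw [← app_eta q] at hq ⊢
  rw [tlc_mem] at hq
  have h1 := le_supp hK.comp (app u (g v)) hq
  rw [supp_inv h hK.comp ⟨_, h0⟩ iK hg, inner_app, hc.dual, inner_eq _ (Ψ (g v))] at h1
  rw [inner_app, inner_eq _ a]
  have h2 : ∑ i, snd q i * a i ≤ ∑ i, ab (snd q) i * Ψ (g v) i := by
    apply Finset.sum_le_sum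
    intro i _
    show snd q i * a i ≤ |snd q i| * Ψ (g v) i
    rw [← ha i, ← abs_mul]
    exact le_abs_self _
  linarith

theorem tlc_incl (h : Refl G α) (hc : Cd α Φ Ψ) {t : ℝ} (ht0 : 0 < t) (ht1 : t < 1)
    {K C : Set (E (N + d))} (hK : Body K) (hC : Body C) (iK : Inv G K) (iC : Inv G C)
    (h0 : (0 : E (N + d)) ∈ K) (h0' : (0 : E (N + d)) ∈ C) :
    logC t (tlc Φ K) (tlc Φ C) ⊆ tlc Φ (logC t K C) := by
  intro q hq
  rw [← app_eta q] at hq ⊢
  rw [tlc_mem]
  intro p _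
  rw [← app_eta p, inner_app]
  obtain ⟨g, hg, hw⟩ := cover h (snd p)
  set x := fst q with hx
  set c := snd q with hcc
  set u := fst p with hu
  set v := snd p with hv
  have hpos : ∀ i, 0 ≤ Ψ (g v) i := hc.pos _ hw
  set a : E d := WithLp.toLp 2 (fun i => if 0 ≤ c i then Ψ (g v) i else -(Ψ (g v) i)) with ha
  have hai : ∀ i, a i = if 0 ≤ c i then Ψ (g v) i else -(Ψ (g v) i) := fun i => rfl
  have ha1 : ∀ i, |a i| = Ψ (g v) i := by
    intro i
    rw [hai]
    split_ifs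
    · exact abs_of_nonneg (hpos i)
    · rw [abs_neg]
      exact abs_of_nonneg (hpos i)
  have h1 : inner ℝ (Φ (ab c)) v ≤ (inner ℝ c a : ℝ) := by
    have h2 : (inner ℝ (Φ (ab c)) v : ℝ) = inner ℝ (g (Φ (ab c))) (g v) :=
      (g.inner_map_map _ _).symm
    have h3 := dom h hg (ab_cham hc c) hw
    rw [h2]
    refine h3.trans (le_of_eq ?_)
    rw [hc.dual, inner_eq, inner_eq]
    apply Finset.sum_congr rfl
    intro i _
    show |c i| * Ψ (g v) i = c i * a i
    rw [hai]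
    split_ifs with h4
    · rw [abs_of_nonneg h4]
    · rw [abs_of_neg (not_le.1 h4)]
      ring
  have h2 := logC_all (tlc_comp hK.comp) (tlc_comp hC.comp) (rf5_zero_mem h0) (rf5_zero_mem h0')
    hq (app u a)
  rw [inner_app] at h2
  have h3 := rf5_supp h hc hK iK h0 hg u ha1
  have h4 := rf5_supp h hc hC iC h0' hg u ha1
  have h5 := supp_nonneg (tlc_comp (Φ := Φ) hK.comp) (rf5_zero_mem h0) (app u a)
  have h6 := supp_nonneg (tlc_comp (Φ := Φ) hC.comp) (rf5_zero_mem h0') (app u a)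
  have hs0 : 0 < 1 - t := by linarith
  calc inner ℝ x u + inner ℝ (Φ (ab c)) v ≤ inner ℝ x u + inner ℝ c a := by linarith
    _ ≤ supp (tlc Φ K) (app u a) ^ (1 - t) * supp (tlc Φ C) (app u a) ^ t := h2
    _ ≤ supp K (app u v) ^ (1 - t) * supp C (app u v) ^ t := by
        have h7 : 0 ≤ supp K (app u v) := h5.trans h3
        gcongr

end Body

end Pool.Agent.Lib.MP_1dedaf_gt.RF
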