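import Pool.Agent.Lib.MP_1dedaf_gt.RF.A

/-!
# MP_1dedaf_gt, RF, row 6: bodies with coordinate mirrors
-/

set_option autoImplicit false

open MeasureTheory Set Filter Topology
open scoped ENNReal NNReal Pointwise

namespace Pool.Agent.Lib.MP_1dedaf_gt.RF

open Pool.Agent.Lib.MP_1dedaf_gt.SC
open Pool.Agent.Lib.MP_1dedaf_gt.EG
open Pool.Agent.Lib.MP_1dedaf_gt.BL

/-- The section over the point of `R^0`. -/
lemma rf6_zero {N : ℕ} (K : Set (E (N + 0))) (y : E 0) : (sec K y : Set (E N)) = K := by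
  ext x
  have h1 : (Fin.append x.ofLp y.ofLp : Fin (N + 0) → ℝ) = x.ofLp := by
    funext i
    exact Fin.append_left x.ofLp _ i
  show WithLp.toLp 2 (Fin.append x.ofLp y.ofLp) ∈ K ↔ x ∈ K
  rw [h1]
  exact Iff.rfl

/-- The last coordinate separately. -/
lemma rf6_app {N d : ℕ} (x : E N) (c : E d) (y : E 1) :
    (app (N := N + d) (d := 1) (app x c) y : E (N + d + 1)) =
      (app x (SC.ext c (y 0)) : E (N + (d + 1))) := by
  refine r0_ext (N := N + d) (d := 1) (fun i => ?_) (fun j => ?_)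
  · rw [r0_l]
    refine Fin.addCases (fun a => ?_) (fun b => ?_) i
    · rw [r0_l]
      exact (r0_l x (SC.ext c (y 0)) a).symm
    · rw [r0_r]
      exact ((r0_r x (SC.ext c (y 0)) b.castSucc).trans (ext_castSucc c (y 0) b)).symm
  · rw [r0_r]
    have hj : j = 0 := Subsingleton.elim _ _
    subst hj
    exact ((r0_r x (SC.ext c (y 0)) (Fin.last d)).trans (ext_last c (y 0))).symm

lemma rf6_flip {d : ℕ} (i : Fin d) (c : E d) (z : ℝ) :
    flip i.castSucc (SC.ext c z) = SC.ext (flip i c) z := by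
  ext k
  refine Fin.lastCases ?_ (fun a => ?_) k
  · rw [ext_last]
    show Function.update (SC.ext c z).ofLp i.castSucc _ (Fin.last d) = z
    rw [Function.update_of_ne (Fin.castSucc_lt_last i).ne']
    exact ext_last c z
  · rw [ext_castSucc]
    show Function.update (SC.ext c z).ofLp i.castSucc _ a.castSucc =
      Function.update c.ofLp i _ a
    by_cases h : a = i
    · subst h
      rw [Function.update_self, Function.update_self, ext_castSucc]
    · rw [Function.update_of_ne h, Function.update_of_ne (by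
        intro h'
        exact h (Fin.castSucc_injective _ h'))]
      exact ext_castSucc c z a

lemma rf6_flip_last {d : ℕ} (c : E d) (z : ℝ) :
    flip (Fin.last d) (SC.ext c z) = SC.ext c (-z) := by
  ext k
  refine Fin.lastCases ?_ (fun a => ?_) k
  · rw [ext_last]
    show Function.update (SC.ext c z).ofLp (Fin.last d) _ (Fin.last d) = -z
    rw [Function.update_self, ext_last]
  · rw [ext_castSucc]
    show Function.update (SC.ext c z).ofLp (Fin.last d) _ a.castSucc = c a
    rw [Function.update_of_ne (Fin.castSucc_lt_last a).ne]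
    exact ext_castSucc c z a

/-- The interval. -/
def rf6_I : Set (E 1) := {x | |x 0| ≤ 1}

lemma rf6_cont : Continuous fun x : E 1 => |x 0| :=
  continuous_abs.comp ((continuous_apply 0).comp (PiLp.continuous_ofLp 2 _))

lemma rf6_body : Body rf6_I := by
  refine ⟨?_, ?_, ?_⟩
  · intro x hx y hy a b ha hb hab
    have hx' : |x 0| ≤ 1 := hx
    have hy' : |y 0| ≤ 1 := hy
    show |a * x 0 + b * y 0| ≤ 1
    calc |a * x 0 + b * y 0| ≤ |a * x 0| + |b * y 0| := abs_add_le _ _
      _ = a * |x 0| + b * |y 0| := by rw [abs_mul, abs_mul, abs_of_nonneg ha, abs_of_nonneg hb]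
      _ ≤ a * 1 + b * 1 := by gcongr
      _ = 1 := by linarith
  · have hc : IsClosed rf6_I := isClosed_le rf6_cont continuous_const
    refine Metric.isCompact_of_isClosed_isBounded hc ?_
    refine (Metric.isBounded_closedBall (x := (0 : E 1)) (r := 1)).subset fun x hx => ?_
    have hx' : |x 0| ≤ 1 := hx
    rw [mem_closedBall_zero_iff]
    have h5 : ‖x‖ ^ 2 ≤ 1 := by
      rw [EuclideanSpace.norm_sq_eq, Fin.sum_univ_one, Real.norm_eq_abs]
      nlinarith [abs_nonneg (x 0)]
    nlinarith [norm_nonneg x]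
  · refine ⟨0, ?_⟩
    rw [mem_interior]
    refine ⟨{x | |x 0| < 1}, fun x hx => (le_of_lt hx : |x 0| ≤ 1), ?_, ?_⟩
    · exact isOpen_lt rf6_cont continuous_const
    · show |(0 : ℝ)| < 1
      simp

lemma rf6_neg (x : E 1) (hx : x ∈ rf6_I) : -x ∈ rf6_I := by
  have hx' : |x 0| ≤ 1 := hx
  show |-(x 0)| ≤ 1
  rwa [abs_neg]

lemma rf6_gauge (y : E 1) : gauge rf6_I y = |y 0| := by
  have hb := rf6_body
  have h0 : (0 : E 1) ∈ rf6_I := by
    show |(0 : ℝ)| ≤ 1
    simp
  have hmem : ∀ r : ℝ, 0 < r → (y ∈ r • rf6_I ↔ |y 0| ≤ r) := by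
    intro r hr
    rw [Set.mem_smul_set_iff_inv_smul_mem₀ hr.ne']
    show |r⁻¹ * y 0| ≤ 1 ↔ _
    rw [abs_mul, abs_of_pos (inv_pos.2 hr), inv_mul_le_iff₀ hr, mul_one]
  unfold gauge
  apply le_antisymm
  · apply le_of_forall_pos_le_add
    intro ε hε
    apply csInf_le ⟨0, fun r hr => hr.1.le⟩
    have hpos : 0 < |y 0| + ε := by positivity
    exact ⟨hpos, (hmem _ hpos).2 (by linarith)⟩
  · apply le_csInf
    · have hpos : 0 < |y 0| + 1 := by positivity
      exact ⟨_, hpos, (hmem _ hpos).2 (by linarith)⟩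
    · rintro r ⟨hr, hr'⟩
      exact (hmem r hr).1 hr'

lemma rf6_step {N d : ℕ} {X : Set (E N) → Prop} {K : Set (E (N + (d + 1)))}
    (hK : Fl X K) :
    XB (N := N + d) (d := 1) (Fl X) (fun S : Set (E 1) => Body S ∧ ∀ x ∈ S, -x ∈ S) K := by
  obtain ⟨hb, hf, hs⟩ := hK
  refine ⟨hb, ⟨rf6_I, ⟨rf6_body, rf6_neg⟩, ?_⟩, ?_⟩
  · intro p y y' hg hp
    rw [rf6_gauge, rf6_gauge, abs_eq_abs] at hg
    have e1 : y' 0 = y 0 → y' = y := by
      intro h
      ext i
      rw [Subsingleton.elim i 0, h]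
    rcases hg with h1 | h1
    · rw [e1 h1]
      exact hp
    · rw [← app_eta (N := N) (d := d) p] at hp ⊢
      have e2 := rf6_app (fst (N := N) (d := d) p) (snd (N := N) (d := d) p) y
      have e3 := rf6_app (fst (N := N) (d := d) p) (snd (N := N) (d := d) p) y'
      have h2 : (app (fst (N := N) (d := d) p)
          (SC.ext (snd (N := N) (d := d) p) (y 0)) : E (N + (d + 1))) ∈ K := by
        rw [← e2]
        exact hp
      have h3 := hf (Fin.last d) _ _ h2
      rw [rf6_flip_last, ← h1, ← e3] at h3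
      exact h3
  · intro y hy
    refine ⟨⟨sec_conv (N := N + d) (d := 1) hb.conv y, sec_comp (N := N + d) (d := 1) hb.comp y,
      hy⟩, ?_, ?_⟩
    · intro i x c hx
      have h1 : (app (N := N + d) (d := 1) (app x c) y : E (N + d + 1)) ∈ K := hx
      have h2 : (app x (SC.ext c (y 0)) : E (N + (d + 1))) ∈ K := by
        rw [← rf6_app]
        exact h1
      have h3 := hf i.castSucc _ _ h2
      rw [rf6_flip, ← rf6_app] at h3
      exact h3
    · intro w hw
      have h1 : sec (N := N) (d := d) (sec (N := N + d) (d := 1) K y) w =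
          sec (N := N) (d := d + 1) K (SC.ext w (y 0)) := by
        ext x
        show (app (N := N + d) (d := 1) (app x w) y : E (N + d + 1)) ∈ K ↔
          (app x (SC.ext w (y 0)) : E (N + (d + 1))) ∈ K
        rw [← rf6_app]
      rw [h1] at hw ⊢
      exact hs _ hw

theorem thm_fl {N d : ℕ} {X : Set (E N) → Prop} (hX : Thm X) :
    Thm (Fl X : Set (E (N + d)) → Prop) := by
  induction d with
  | zero =>
    have h1 : ∀ K : Set (E (N + 0)), Fl X K → X K := by
      intro K hK
      have h2 : (sec K (0 : E 0) : Set (E N)) = K := rf6_zero K 0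
      have h3 := hK.2.2 0
      rw [h2] at h3
      exact h3 hK.1.int
    exact Thm.sub (n := N) (X := X) hX h1
  | succ d ih =>
    exact Thm.sub (n := N + d + 1)
      (thm_XB (N := N + d) (d := 1) one_pos ih thm_seg) fun K hK => rf6_step hK

end Pool.Agent.Lib.MP_1dedaf_gt.RF

/-!
# MP_1dedaf_gt, RF, row 7a: centroid
-/

set_option autoImplicit false

open MeasureTheory Set Filter Topology
open scoped ENNReal NNReal Pointwise

namespace Pool.Agent.Lib.MP_1dedaf_gt.RF

open Pool.Agent.Lib.MP_1dedaf_gt.SC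
open Pool.Agent.Lib.MP_1dedaf_gt.EG
open Pool.Agent.Lib.MP_1dedaf_gt.BL

/-! ROW 7a: centroid. -/
private lemma rf7a_coord {n : ℕ} {K : Set (E n)} (hK : IsCompact K) (k : Fin n) :
    (∫ x in K, x) k = ∫ x in K, x k := by
  have hi : IntegrableOn (fun p : E n => p) K :=
    continuous_id.continuousOn.integrableOn_compact hK
  exact ((EuclideanSpace.proj k : E n →L[ℝ] ℝ).integral_comp_comm
    (μ := volume.restrict K) (φ := fun x => x) hi).symm

private lemma rf7a_zero {d : ℕ} {α : Fin d → E d} (h : LinearIndependent ℝ α) {w : E d}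
    (hw : ∀ i, (inner ℝ w (α i) : ℝ) = 0) : w = 0 := by
  have h1 : Submodule.span ℝ (Set.range α) = ⊤ := by
    apply h.span_eq_top_of_card_eq_finrank'
    simp
  have h2 : ∀ y ∈ Submodule.span ℝ (Set.range α), (inner ℝ w y : ℝ) = 0 := by
    intro y hy
    induction hy using Submodule.span_induction with
    | mem x hx =>
      obtain ⟨i, rfl⟩ := hx
      exact hw i
    | zero => exact inner_zero_right _
    | add x y _ _ hx hy => rw [inner_add_right, hx, hy, add_zero]
    | smul a x _ hx => rw [real_inner_smul_right, hx, mul_zero]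
  have h3 := h2 w (by rw [h1]; exact Submodule.mem_top)
  exact inner_self_eq_zero.1 h3

private lemma rf7a_inv {d : ℕ} {G : Subgroup (E d ≃ₗᵢ[ℝ] E d)} {α : Fin d → E d} (h : Refl G α)
    {A : Set (E d)} (hA : IsCompact A) (hi : ∀ g ∈ G, ∀ y ∈ A, g y ∈ A) :
    ∫ y in A, y = 0 := by
  have hint : IntegrableOn (fun p : E d => p) A :=
    continuous_id.continuousOn.integrableOn_compact hA
  apply rf7a_zero h.indep
  intro i
  obtain ⟨g, hg, hgy⟩ := h.ref i
  have hα : (inner ℝ (α i) (α i) : ℝ) ≠ 0 := fun h0 => h.indep.ne_zero i (inner_self_eq_zero.1 h0)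
  have hpre : g ⁻¹' A = A := by
    ext y
    constructor
    · intro hy
      have h1 := hi g⁻¹ (G.inv_mem hg) (g y) hy
      have h2 : g⁻¹ (g y) = y := g.symm_apply_apply y
      rwa [h2] at h1
    · intro hy
      exact hi g hg y hy
  have h1 : g (∫ y in A, y) = ∫ y in A, y := by
    have e1 : ∫ y in A, g y = g (∫ y in A, y) :=
      (g.toContinuousLinearEquiv : E d →L[ℝ] E d).integral_comp_comm
        (μ := volume.restrict A) (φ := fun x => x) hint
    have e2 := g.measurePreserving.setIntegral_preimage_emb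
      g.toHomeomorph.measurableEmbedding (fun y : E d => y) A
    rw [hpre] at e2
    rw [← e1]
    exact e2
  have h2 := congrArg (fun z : E d => (inner ℝ z (α i) : ℝ)) h1
  simp only [hgy] at h2
  rw [inner_sub_left, real_inner_smul_left, div_mul_cancel₀ _ hα] at h2
  linarith

theorem cent_XR {N d : ℕ} {G : Subgroup (E d ≃ₗᵢ[ℝ] E d)} {α : Fin d → E d}
    {X : Set (E N) → Prop} (hX : Thm X) (h : Refl G α) {K : Set (E (N + d))} (hK : XR X G K) :
    ∫ x in K, x = 0 := by
  obtain ⟨hb, hG, hs⟩ := hK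
  have hx : ∀ i : Fin N, ∫ p in K, p (Fin.castAdd d i) = 0 := by
    intro i
    refine fub_fst hb.comp i (fun y => ?_)
    by_cases hn : (interior (sec K y)).Nonempty
    · have h1 := hX.cent _ (hs y hn)
      rw [← rf7a_coord (sec_comp hb.comp y), h1]
      rfl
    · have h1 : volume (sec K y) = 0 := by
        by_contra h2
        exact hn (int_nonempty (sec_conv hb.conv y) h2)
      exact setIntegral_measure_zero _ h1
  have hy : ∀ j : Fin d, ∫ p in K, p (Fin.natAdd N j) = 0 := by
    intro j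
    refine fub_snd hb.comp j (fun x => ?_)
    have hc : IsCompact {y : E d | app x y ∈ K} := by
      refine (hb.comp.image cont_snd).of_isClosed_subset ?_ ?_
      · exact hb.comp.isClosed.preimage
          (cont_app.comp (Continuous.prodMk continuous_const continuous_id))
      · intro y hy
        exact ⟨app x y, hy, snd_app x y⟩
    rw [← rf7a_coord hc, rf7a_inv h hc fun g hg y hy => hG g hg x y hy]
    rfl
  ext k
  rw [rf7a_coord hb.comp]
  exact Fin.addCases (motive := fun k => ∫ p in K, p k = (0 : E (N + d)) k) hx hy k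

end Pool.Agent.Lib.MP_1dedaf_gt.RF

/-!
# MP_1dedaf_gt, RF, row 7b: inequality, equality for the bodies with coordinate mirrors
-/

set_option autoImplicit false

open MeasureTheory Set Filter Topology
open scoped ENNReal NNReal Pointwise

namespace Pool.Agent.Lib.MP_1dedaf_gt.RF

open Pool.Agent.Lib.MP_1dedaf_gt.SC
open Pool.Agent.Lib.MP_1dedaf_gt.EG
open Pool.Agent.Lib.MP_1dedaf_gt.BL

section Cls

variable {N d : ℕ} {G : Subgroup (E d ≃ₗᵢ[ℝ] E d)} {α : Fin d → E d} {X : Set (E N) → Prop}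

private lemma rf7b_vol {n : ℕ} {K : Set (E n)} (h : (interior K).Nonempty) : volume K ≠ 0 :=
  fun h0 => (isOpen_interior.measure_pos volume h).ne' (measure_mono_null interior_subset h0)

/-! ROW 7b -/
theorem fl_tlc {Φ Ψ : E d ≃L[ℝ] E d} (hX : Thm X) (h : Refl G α) (hc : Cd α Φ Ψ)
    {K : Set (E (N + d))} (hK : XR X G K) : Fl X (tlc Φ K) := by
  obtain ⟨hb, hG, hs⟩ := hK
  obtain ⟨κ, hκ0, -, hκ⟩ := vol_tlc (N := N) h hc
  have hcv := tlc_conv h hc hb.conv hb.comp hG
  refine ⟨⟨hcv, tlc_comp hb.comp, int_nonempty hcv ?_⟩, fun i x c => tlc_flip K i x c,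
    fun c hn => ?_⟩
  · rw [hκ K hb.comp.measurableSet hG]
    exact mul_ne_zero hκ0 (rf7b_vol hb.int)
  · rw [sec_tlc] at hn ⊢
    exact hs _ hn

/-- The chain of inequalities. -/
private lemma rf7b_chain {Φ Ψ : E d ≃L[ℝ] E d} (hX : Thm X) (h : Refl G α) (hc : Cd α Φ Ψ)
    {t : ℝ} (ht0 : 0 < t) (ht1 : t < 1) {K C : Set (E (N + d))} (hK : XR X G K)
    (hC : XR X G C) : ∃ κ : ℝ≥0∞, κ ≠ 0 ∧ κ ≠ ∞ ∧
      volume (tlc Φ K) ^ (1 - t) * volume (tlc Φ C) ^ t =
        κ * (volume K ^ (1 - t) * volume C ^ t) ∧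
      volume (tlc Φ K) ^ (1 - t) * volume (tlc Φ C) ^ t ≤
        volume (logC t (tlc Φ K) (tlc Φ C)) ∧
      volume (logC t (tlc Φ K) (tlc Φ C)) ≤ κ * volume (logC t K C) := by
  obtain ⟨κ, hκ0, hκ1, hκ⟩ := vol_tlc (N := N) h hc
  have fK := fl_tlc hX h hc hK
  have fC := fl_tlc hX h hc hC
  have cK := cent_XR hX h hK
  have cC := cent_XR hX h hC
  obtain ⟨bK, iK, -⟩ := hK
  obtain ⟨bC, iC, -⟩ := hC
  have zK : (0 : E (N + d)) ∈ K :=
    interior_subset (r18_interior bK.conv bK.comp (rf7b_vol bK.int) cK)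
  have zC : (0 : E (N + d)) ∈ C :=
    interior_subset (r18_interior bC.conv bC.comp (rf7b_vol bC.int) cC)
  have hW : IsCompact (logC t K C) :=
    Metric.isCompact_of_isClosed_isBounded (isClosed_logC t K C)
      (logC_bdd ht0 ht1 bK.comp bC.comp zK zC)
  refine ⟨κ, hκ0, hκ1, ?_, (thm_fl hX).ineq t ht0 ht1 _ _ fK fC, ?_⟩
  · rw [hκ K bK.comp.measurableSet iK, hκ C bC.comp.measurableSet iC,
      ENNReal.mul_rpow_of_nonneg _ _ (by linarith : (0 : ℝ) ≤ 1 - t),
      ENNReal.mul_rpow_of_nonneg _ _ ht0.le]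
    have e1 : κ ^ (1 - t) * κ ^ t = κ := by
      rw [← ENNReal.rpow_add _ _ hκ0 hκ1, sub_add_cancel, ENNReal.rpow_one]
    calc κ ^ (1 - t) * volume K ^ (1 - t) * (κ ^ t * volume C ^ t)
        = (κ ^ (1 - t) * κ ^ t) * (volume K ^ (1 - t) * volume C ^ t) := by ring
      _ = κ * (volume K ^ (1 - t) * volume C ^ t) := by rw [e1]
  · rw [← hκ _ hW.measurableSet (inv_logC h bK bC iK iC)]
    exact measure_mono (tlc_incl h hc ht0 ht1 bK bC iK iC zK zC)

theorem ineq_XR (hX : Thm X) (h : Refl G α) {t : ℝ} (ht0 : 0 < t) (ht1 : t < 1)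
    {K C : Set (E (N + d))} (hK : XR X G K) (hC : XR X G C) :
    volume K ^ (1 - t) * volume C ^ t ≤ volume (logC t K C) := by
  obtain ⟨Φ, Ψ, hc⟩ := exists_cd h
  obtain ⟨κ, hκ0, hκ1, h1, h2, h3⟩ := rf7b_chain hX h hc ht0 ht1 hK hC
  have h4 : κ * (volume K ^ (1 - t) * volume C ^ t) ≤ κ * volume (logC t K C) := by
    rw [← h1]
    exact h2.trans h3
  exact (ENNReal.mul_le_mul_iff_right hκ0 hκ1).1 h4

/-- Equality for `K`, `C` gives equality for the bodies with coordinate mirrors. -/
theorem str_tlc {Φ Ψ : E d ≃L[ℝ] E d} (hX : Thm X) (h : Refl G α) (hc : Cd α Φ Ψ) {t : ℝ}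
    (ht0 : 0 < t) (ht1 : t < 1) {K C : Set (E (N + d))} (hK : XR X G K) (hC : XR X G C)
    (heq : volume (logC t K C) = volume K ^ (1 - t) * volume C ^ t) :
    ∃ Λ π, Str (tlc Φ K) (tlc Φ C) Λ π := by
  obtain ⟨κ, hκ0, hκ1, h1, h2, h3⟩ := rf7b_chain hX h hc ht0 ht1 hK hC
  rw [heq, ← h1] at h3
  exact (thm_fl hX).str t ht0 ht1 _ _ (fl_tlc hX h hc hK) (fl_tlc hX h hc hC) (le_antisymm h3 h2)

end Cls

end Pool.Agent.Lib.MP_1dedaf_gt.RF

/-!
# MP_1dedaf_gt, RF, row 8: the structure of bodies with coordinate mirrors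
-/

set_option autoImplicit false

open MeasureTheory Set Filter Topology
open scoped ENNReal NNReal Pointwise

namespace Pool.Agent.Lib.MP_1dedaf_gt.RF

open Pool.Agent.Lib.MP_1dedaf_gt.SC
open Pool.Agent.Lib.MP_1dedaf_gt.EG
open Pool.Agent.Lib.MP_1dedaf_gt.BL

private lemma rf8_flip_same {d : ℕ} (i : Fin d) (c : E d) : flip i c i = -(c i) := by
  show Function.update c.ofLp i (-(c i)) i = -(c i)
  rw [Function.update_self]

private lemma rf8_flip_ne {d : ℕ} {i j : Fin d} (hij : j ≠ i) (c : E d) : flip i c j = c j := by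
  show Function.update c.ofLp i (-(c i)) j = c j
  rw [Function.update_of_ne hij]

private lemma rf8_flip_add {d : ℕ} (i : Fin d) (a b : E d) :
    flip i (a + b) = flip i a + flip i b := by
  ext j
  rw [PiLp.add_apply]
  by_cases hij : j = i
  · subst hij
    rw [rf8_flip_same, rf8_flip_same, rf8_flip_same, PiLp.add_apply]
    ring
  · rw [rf8_flip_ne hij, rf8_flip_ne hij, rf8_flip_ne hij, PiLp.add_apply]

private lemma rf8_flip_smul {d : ℕ} (i : Fin d) (t : ℝ) (a : E d) :
    flip i (t • a) = t • flip i a := by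
  ext j
  rw [PiLp.smul_apply]
  by_cases hij : j = i
  · subst hij
    rw [rf8_flip_same, rf8_flip_same, PiLp.smul_apply]
    simp
  · rw [rf8_flip_ne hij, rf8_flip_ne hij, PiLp.smul_apply]

private lemma rf8_flip_flip {d : ℕ} (i : Fin d) (c : E d) : flip i (flip i c) = c := by
  ext j
  by_cases hij : j = i
  · subst hij
    rw [rf8_flip_same, rf8_flip_same, neg_neg]
  · rw [rf8_flip_ne hij, rf8_flip_ne hij]

private lemma rf8_flip_zero {d : ℕ} (i : Fin d) : flip i (0 : E d) = 0 := by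
  have h := rf8_flip_smul i (0 : ℝ) (0 : E d)
  simpa using h

private lemma rf8_sum {d : ℕ} (a : Fin d → ℝ) :
    (∑ i, a i • (EuclideanSpace.single i (1 : ℝ) : E d)) = WithLp.toLp 2 a := by
  ext j
  simp [Finset.sum_apply, Pi.single_apply]

/-- The mirror on the whole space. -/
private noncomputable def rf8_R {N d : ℕ} (i : Fin d) : E (N + d) →L[ℝ] E (N + d) :=
  dia (ContinuousLinearMap.id ℝ (E N))
    (LinearMap.toContinuousLinearMap
      { toFun := fun c => flip i c
        map_add' := rf8_flip_add i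
        map_smul' := fun t a => by rw [rf8_flip_smul, RingHom.id_apply] })

private lemma rf8_R_app {N d : ℕ} (i : Fin d) (x : E N) (c : E d) :
    rf8_R i (app x c) = app x (flip i c) := by
  unfold rf8_R
  rw [dia_app]
  rfl

private lemma rf8_R_eq {N d : ℕ} (i : Fin d) (z : E (N + d)) :
    rf8_R i z = app (fst z) (flip i (snd z)) := by
  rw [← rf8_R_app, app_eta]

private lemma rf8_R_R {N d : ℕ} (i : Fin d) (z : E (N + d)) : rf8_R i (rf8_R i z) = z := by
  rw [rf8_R_eq i z, rf8_R_app, rf8_flip_flip, app_eta]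

private lemma rf8_comm {N d : ℕ} {K C : Set (E (N + d))} (hK : IsCompact K)
    (hi : (0 : E (N + d)) ∈ interior K)
    (fK : ∀ i x c, app x c ∈ K → app x (flip i c) ∈ K)
    (fC : ∀ i x c, app x c ∈ C → app x (flip i c) ∈ C)
    {Λ : Finset ℝ} {π : ℝ → (E (N + d) →L[ℝ] E (N + d))} (h : Str K C Λ π) (i : Fin d) (r : ℝ)
    (z : E (N + d)) : rf8_R i (π r z) = π r (rf8_R i z) := by
  have hRK : ∀ p ∈ K, rf8_R i p ∈ K := by
    intro p hp
    rw [rf8_R_eq]
    exact fK i _ _ (by rw [app_eta]; exact hp)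
  have hRC : ∀ p ∈ C, rf8_R i p ∈ C := by
    intro p hp
    rw [rf8_R_eq]
    exact fC i _ _ (by rw [app_eta]; exact hp)
  have h' : Str K C Λ (fun s => (rf8_R i).comp ((π s).comp (rf8_R i))) := by
    refine ⟨⟨h.fam.pos, fun x => ?_, fun a ha b hb hab x => ?_, fun a ha h0 => ?_, fun a ha => ?_⟩,
      fun f hf => ?_, ?_⟩
    · simp only [ContinuousLinearMap.comp_apply]
      rw [← map_sum, h.fam.one, rf8_R_R]
    · simp only [ContinuousLinearMap.comp_apply, rf8_R_R, h.fam.ort a ha b hb hab, map_zero]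
    · apply h.fam.nz a ha
      ext1 x
      have h1 := congrArg (fun T : E (N + d) →L[ℝ] E (N + d) => T (rf8_R i x)) h0
      simp only [ContinuousLinearMap.comp_apply, rf8_R_R, ContinuousLinearMap.zero_apply] at h1
      have h2 := congrArg (rf8_R i) h1
      rw [rf8_R_R, map_zero] at h2
      exact h2
    · ext1 x
      simp only [ContinuousLinearMap.comp_apply, h.fam.out a ha, ContinuousLinearMap.zero_apply,
        map_zero]
    · simp only [ContinuousLinearMap.comp_apply]
      rw [← map_sum]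
      exact hRK _ (h.clo (fun s => rf8_R i (f s)) (fun s hs => hRK _ (hf s hs)))
    · have ho : ∀ p, op Λ (fun s => (rf8_R i).comp ((π s).comp (rf8_R i))) p =
          rf8_R i (op Λ π (rf8_R i p)) := by
        intro p
        simp only [op, ContinuousLinearMap.sum_apply, ContinuousLinearMap.smul_apply,
          ContinuousLinearMap.comp_apply, map_sum, map_smul]
      ext q
      constructor
      · intro hq
        have h1 := hRC _ hq
        rw [h.img] at h1
        obtain ⟨p, hp, hpq⟩ := h1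
        refine ⟨rf8_R i p, hRK p hp, ?_⟩
        rw [ho, rf8_R_R, hpq, rf8_R_R]
      · rintro ⟨p, hp, rfl⟩
        rw [ho]
        apply hRC
        rw [h.img]
        exact ⟨_, hRK p hp, rfl⟩
  have he := (Str.uniq (t := 1 / 2) (by norm_num) (by norm_num) hK hi h h').2
  have h4 : π r z = rf8_R i (π r (rf8_R i z)) := by
    conv_lhs => rw [he]
    rfl
  rw [h4, rf8_R_R]

/-- ROW 8. -/
theorem diag {N d : ℕ} {K C : Set (E (N + d))} (hK : IsCompact K)
    (hi : (0 : E (N + d)) ∈ interior K)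
    (fK : ∀ i x c, app x c ∈ K → app x (flip i c) ∈ K)
    (fC : ∀ i x c, app x c ∈ C → app x (flip i c) ∈ C)
    {Λ : Finset ℝ} {π : ℝ → (E (N + d) →L[ℝ] E (N + d))} (h : Str K C Λ π) :
    ∃ (p : ℝ → (E N →L[ℝ] E N)) (R : Fin d → ℝ), (∀ i, R i ∈ Λ) ∧
      ∀ r x c, π r (app x c) =
        app (p r x) (WithLp.toLp 2 fun i => if R i = r then c i else 0) := by
  classical
  -- the first part is mapped to the first part
  have c1 : ∀ r x, π r (app x (0 : E d)) = app (fst (π r (app x (0 : E d)))) 0 := by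
    intro r x
    have hs : snd (π r (app x (0 : E d))) = 0 := by
      ext i
      have h1 := rf8_comm hK hi fK fC h i r (app x 0)
      rw [rf8_R_app, rf8_flip_zero, rf8_R_eq] at h1
      have h2 := congrArg (fun v : E (N + d) => snd v i) h1
      simp only [snd_app, rf8_flip_same] at h2
      show snd (π r (app x (0 : E d))) i = 0
      linarith
    conv_lhs => rw [← app_eta (π r (app x (0 : E d))), hs]
  -- the coordinate vectors
  have c2 : ∀ r i, π r (app (0 : E N) (EuclideanSpace.single i (1 : ℝ))) =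
      snd (π r (app (0 : E N) (EuclideanSpace.single i (1 : ℝ)))) i •
        app (0 : E N) (EuclideanSpace.single i (1 : ℝ)) := by
    intro r i
    set z := π r (app (0 : E N) (EuclideanSpace.single i (1 : ℝ))) with hz
    have hf : flip i (EuclideanSpace.single i (1 : ℝ)) = -(EuclideanSpace.single i (1 : ℝ)) := by
      ext j
      by_cases hij : j = i
      · subst hij
        rw [rf8_flip_same]
        rfl
      · rw [rf8_flip_ne hij]
        simp [hij]
    have hn : app (0 : E N) (-(EuclideanSpace.single i (1 : ℝ)) : E d) =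
        -(app (0 : E N) (EuclideanSpace.single i (1 : ℝ))) := by
      have h0 := app_smul (-1 : ℝ) (0 : E N) (EuclideanSpace.single i (1 : ℝ) : E d)
      rw [smul_zero, neg_one_smul, neg_one_smul] at h0
      exact h0.symm
    have h1 := rf8_comm hK hi fK fC h i r (app (0 : E N) (EuclideanSpace.single i (1 : ℝ)))
    rw [rf8_R_app, hf, hn, map_neg, rf8_R_eq, ← hz] at h1
    have hfst : fst z = 0 := by
      ext k
      have h2 := congrArg (fun v : E (N + d) => fst v k) h1
      simp only [fst_app] at h2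
      have h3 : fst (-z) k = -(fst z k) := rfl
      rw [h3] at h2
      show fst z k = 0
      linarith
    have hsnd : ∀ j, j ≠ i → snd z j = 0 := by
      intro j hj
      have h2 := congrArg (fun v : E (N + d) => snd v j) h1
      simp only [snd_app, rf8_flip_ne hj] at h2
      have h3 : snd (-z) j = -(snd z j) := rfl
      rw [h3] at h2
      linarith
    rw [app_smul, smul_zero]
    have h5 : snd z = snd z i • (EuclideanSpace.single i (1 : ℝ) : E d) := by
      ext j
      rw [PiLp.smul_apply]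
      by_cases hij : j = i
      · subst hij
        simp
      · rw [hsnd j hij]
        simp [hij]
    rw [← h5, ← hfst, app_eta]
  -- the ratios
  have hne : ∀ i : Fin d, app (0 : E N) (EuclideanSpace.single i (1 : ℝ)) ≠ 0 := by
    intro i h0
    have h1 := congrArg (fun v : E (N + d) => snd v i) h0
    simp only [snd_app] at h1
    have h2 : snd (0 : E (N + d)) i = 0 := rfl
    rw [h2] at h1
    simp at h1
  have c3 : ∀ i : Fin d, ∃ r ∈ Λ, ∀ s, snd (π s (app (0 : E N) (EuclideanSpace.single i (1 : ℝ)))) i =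
      if r = s then 1 else 0 := by
    intro i
    have h1 := h.fam.one (app (0 : E N) (EuclideanSpace.single i (1 : ℝ)))
    have h2 : ∑ s ∈ Λ, snd (π s (app (0 : E N) (EuclideanSpace.single i (1 : ℝ)))) i = 1 := by
      rw [Finset.sum_congr rfl (fun s _ => c2 s i), ← Finset.sum_smul] at h1
      have h3 : (∑ s ∈ Λ, snd (π s (app (0 : E N) (EuclideanSpace.single i (1 : ℝ)))) i - 1) •
          app (0 : E N) (EuclideanSpace.single i (1 : ℝ)) = 0 := by
        rw [sub_smul, h1, one_smul, sub_self]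
      rcases smul_eq_zero.1 h3 with h4 | h4
      · linarith
      · exact absurd h4 (hne i)
    have h3 : ∃ r ∈ Λ, snd (π r (app (0 : E N) (EuclideanSpace.single i (1 : ℝ)))) i ≠ 0 := by
      by_contra hc
      push Not at hc
      rw [Finset.sum_eq_zero hc] at h2
      exact zero_ne_one h2
    obtain ⟨r, hr, hr0⟩ := h3
    have h4 : ∀ s ∈ Λ, s ≠ r → snd (π s (app (0 : E N) (EuclideanSpace.single i (1 : ℝ)))) i = 0 := by
      intro s hs hsr
      have h5 := h.fam.ort s hs r hr hsr (app (0 : E N) (EuclideanSpace.single i (1 : ℝ)))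
      rw [c2 r i, map_smul, c2 s i, smul_smul] at h5
      rcases smul_eq_zero.1 h5 with h6 | h6
      · rcases mul_eq_zero.1 h6 with h7 | h7
        · exact absurd h7 hr0
        · exact h7
      · exact absurd h6 (hne i)
    refine ⟨r, hr, fun s => ?_⟩
    by_cases hrs : r = s
    · subst hrs
      rw [if_pos rfl]
      rw [Finset.sum_eq_single r (fun s hs hsr => h4 s hs hsr) (fun hr' => absurd hr hr')] at h2
      exact h2
    · rw [if_neg hrs]
      by_cases hs : s ∈ Λ
      · exact h4 s hs (fun hh => hrs hh.symm)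
      · rw [h.fam.out s hs]
        rfl
  choose R hR hRs using c3
  refine ⟨fun r => LinearMap.toContinuousLinearMap
    { toFun := fun x => fst (π r (app x (0 : E d)))
      map_add' := fun x y => by
        have h1 := app_comb 1 1 x y (0 : E d) 0
        simp only [one_smul, add_zero] at h1
        rw [← h1, map_add]
        rfl
      map_smul' := fun t x => by
        have h1 := app_smul t x (0 : E d)
        rw [smul_zero] at h1
        rw [← h1, map_smul]
        rfl }, R, hR, fun r x c => ?_⟩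
  have h1 : app x c = app x 0 + ∑ i, c i • app (0 : E N) (EuclideanSpace.single i (1 : ℝ)) := by
    simp only [app_smul, smul_zero]
    rw [app_sum, Finset.sum_const_zero]
    have h2 : (∑ i, c i • (EuclideanSpace.single i (1 : ℝ) : E d)) = c := by
      rw [rf8_sum]
    rw [h2]
    have h3 := app_comb 1 1 x 0 (0 : E d) c
    simp only [one_smul, add_zero, zero_add] at h3
    exact h3.symm
  rw [h1, map_add, map_sum, c1 r x]
  have h4 : ∀ i, π r (c i • app (0 : E N) (EuclideanSpace.single i (1 : ℝ))) =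
      app (0 : E N) ((if R i = r then c i else 0) • (EuclideanSpace.single i (1 : ℝ) : E d)) := by
    intro i
    rw [map_smul, c2 r i, hRs i r, smul_smul, app_smul, smul_zero]
    by_cases hir : R i = r
    · rw [if_pos hir, if_pos hir, mul_one]
    · rw [if_neg hir, if_neg hir, mul_zero]
  rw [Finset.sum_congr rfl (fun i _ => h4 i), app_sum, Finset.sum_const_zero]
  have h5 : (∑ i, (if R i = r then c i else 0) • (EuclideanSpace.single i (1 : ℝ) : E d)) =
      WithLp.toLp 2 fun i => if R i = r then c i else 0 :=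
    rf8_sum fun i => if R i = r then c i else 0
  rw [h5]
  have h6 := app_comb 1 1 (fst (π r (app x (0 : E d)))) 0 (0 : E d)
    (WithLp.toLp 2 fun i => if R i = r then c i else 0)
  simp only [one_smul, add_zero, zero_add] at h6
  exact h6

end Pool.Agent.Lib.MP_1dedaf_gt.RF

/-!
# MP_1dedaf_gt, RF, row 9: equal ratios
-/

set_option autoImplicit false

open MeasureTheory Set Filter Topology
open scoped ENNReal NNReal Pointwise

namespace Pool.Agent.Lib.MP_1dedaf_gt.RF

open Pool.Agent.Lib.MP_1dedaf_gt.SC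
open Pool.Agent.Lib.MP_1dedaf_gt.EG
open Pool.Agent.Lib.MP_1dedaf_gt.BL

section Eq

variable {N d : ℕ} {G : Subgroup (E d ≃ₗᵢ[ℝ] E d)} {α : Fin d → E d} {Φ Ψ : E d ≃L[ℝ] E d}

private lemma rf9_ab {c : E d} (h : ∀ i, 0 ≤ c i) : ab c = c := by
  ext i
  show |c i| = c i
  exact abs_of_nonneg (h i)

private lemma rf9_mem (K : Set (E (N + d))) (x : E N) {c : E d} (h : ∀ i, 0 ≤ c i) :
    app x c ∈ tlc Φ K ↔ app x (Φ c) ∈ K := by
  rw [tlc_mem, rf9_ab h]

/-- ROW 9: equal ratios. -/
theorem same (h : Refl G α) (hc : Cd α Φ Ψ) {K C : Set (E (N + d))} (hK : Body K)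
    (iK : Inv G K) (hi : (0 : E (N + d)) ∈ interior (tlc Φ K))
    {Λ : Finset ℝ} {π : ℝ → (E (N + d) →L[ℝ] E (N + d))} (hs : Str (tlc Φ K) (tlc Φ C) Λ π)
    {p : ℝ → (E N →L[ℝ] E N)} {R : Fin d → ℝ} (hR : ∀ i, R i ∈ Λ)
    (hd : ∀ r x c, π r (app x c) =
      app (p r x) (WithLp.toLp 2 fun i => if R i = r then c i else 0)) {i j : Fin d}
    (hij : (inner ℝ (α i) (α j) : ℝ) ≠ 0) : R i = R j := by
  by_contra hne
  have hij' : i ≠ j := fun h1 => hne (by rw [h1])
  have hneg : (inner ℝ (α i) (α j) : ℝ) < 0 := lt_of_le_of_ne (h.obt i j hij') hij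
  have hαj : 0 < (inner ℝ (α j) (α j) : ℝ) := by
    have h1 : α j ≠ 0 := h.indep.ne_zero j
    exact real_inner_self_pos.2 h1
  -- a small point with equal coordinates
  obtain ⟨ε, hε, hq⟩ : ∃ ε : ℝ, 0 < ε ∧
      app (0 : E N) (WithLp.toLp 2 fun _ => ε : E d) ∈ tlc Φ K := by
    have h1 : Tendsto (fun e : ℝ => app (0 : E N) (WithLp.toLp 2 fun _ => e : E d)) (𝓝[>] 0)
        (𝓝 0) := by
      have h2 : Continuous fun e : ℝ => app (0 : E N) (WithLp.toLp 2 fun _ => e : E d) := by
        apply cont_app.comp (Continuous.prodMk continuous_const _)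
        fun_prop
      have h3 := h2.tendsto 0
      have h4 : app (0 : E N) (WithLp.toLp 2 fun _ => (0 : ℝ) : E d) = 0 := app_zero
      rw [h4] at h3
      exact h3.mono_left nhdsWithin_le_nhds
    have h5 := h1.eventually (isOpen_interior.mem_nhds hi)
    obtain ⟨e, he1, he2⟩ := (h5.and self_mem_nhdsWithin).exists
    exact ⟨e, he2, interior_subset he1⟩
  set q : E (N + d) := app (0 : E N) (WithLp.toLp 2 fun _ => ε : E d) with hqdef
  -- the farthest point in the direction `i`
  have hcl : IsClosed {z : E (N + d) | fst z = 0 ∧ ∀ k : Fin d, k ≠ i → snd z k = ε} := by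
    have e1 : {z : E (N + d) | fst z = 0 ∧ ∀ k : Fin d, k ≠ i → snd z k = ε} =
        {z | fst z = 0} ∩ ⋂ k : Fin d, ⋂ _ : k ≠ i, {z | snd z k = ε} := by
      ext z
      simp
    rw [e1]
    apply IsClosed.inter
    · exact isClosed_eq cont_fst continuous_const
    · apply isClosed_iInter
      intro k
      apply isClosed_iInter
      intro _
      apply isClosed_eq _ continuous_const
      exact (EuclideanSpace.proj k).continuous.comp cont_snd
  have hSc := (tlc_comp (Φ := Φ) hK.comp).inter_right hcl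
  have hqS : q ∈ tlc Φ K ∩ {z : E (N + d) | fst z = 0 ∧ ∀ k : Fin d, k ≠ i → snd z k = ε} := by
    refine ⟨hq, ?_, ?_⟩
    · rw [hqdef, fst_app]
    · intro k _
      rw [hqdef, snd_app]
  have hcont : Continuous fun z : E (N + d) => snd z i :=
    (EuclideanSpace.proj i).continuous.comp cont_snd
  obtain ⟨b, ⟨hbK, hb0, hbε⟩, hmax⟩ := hSc.exists_isMaxOn ⟨q, hqS⟩ hcont.continuousOn
  set c : E d := snd b with hcdef
  have hbc : app (0 : E N) c = b := by rw [← hb0, hcdef, app_eta]
  have hci : ε ≤ c i := by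
    have h1 : snd q i ≤ snd b i := hmax hqS
    rw [hqdef, snd_app] at h1
    exact h1
  have hcε : ∀ k, ε ≤ c k := by
    intro k
    rcases eq_or_ne k i with hk | hk
    · rw [hk]; exact hci
    · rw [hbε k hk]
  have hcp : ∀ k, 0 ≤ c k := fun k => hε.le.trans (hcε k)
  have hy : app (0 : E N) (Φ c) ∈ K := by
    rw [← rf9_mem K 0 hcp, hbc]
    exact hbK
  -- the middle of `y` and its mirror image
  obtain ⟨g, hg, hgy⟩ := h.ref j
  set μ : ℝ := c j / inner ℝ (α j) (α j) with hμ
  have hμ0 : 0 < μ := div_pos (hε.trans_le (hcε j)) hαj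
  have hm : app (0 : E N) (Φ c - μ • α j) ∈ K := by
    have h1 := iK g hg 0 (Φ c) hy
    have h2 := hK.conv hy h1 (a := 1 / 2) (b := 1 / 2) (by norm_num) (by norm_num) (by norm_num)
    rw [app_comb, smul_zero, add_zero, hgy, hc.inn] at h2
    have e1 : (1 / 2 : ℝ) • Φ c + (1 / 2 : ℝ) • (Φ c - (2 * c j / inner ℝ (α j) (α j)) • α j) =
        Φ c - μ • α j := by
      rw [smul_sub, smul_smul, ← add_sub_assoc, ← add_smul]
      have e2 : (1 / 2 : ℝ) * (2 * c j / inner ℝ (α j) (α j)) = μ := by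
        rw [hμ]
        ring
      have e3 : (1 / 2 : ℝ) + 1 / 2 = 1 := by norm_num
      rw [e2, e3, one_smul]
    rw [e1] at h2
    exact h2
  set c' : E d := Φ.symm (Φ c - μ • α j) with hc'
  have hΦc' : Φ c' = Φ c - μ • α j := by rw [hc', ContinuousLinearEquiv.apply_symm_apply]
  have hk' : ∀ k, c' k = c k - μ * inner ℝ (α j) (α k) := by
    intro k
    rw [← hc.inn c' k, hΦc', inner_sub_left, real_inner_smul_left, hc.inn]
  have hj' : c' j = 0 := by
    rw [hk', hμ]
    field_simp
    ring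
  have hge : ∀ k, k ≠ j → c k ≤ c' k := by
    intro k hk
    rw [hk']
    have h1 := h.obt j k (Ne.symm hk)
    nlinarith
  have hgt : c i < c' i := by
    rw [hk', real_inner_comm]
    nlinarith
  have hc'p : ∀ k, 0 ≤ c' k := by
    intro k
    rcases eq_or_ne k j with hk | hk
    · rw [hk, hj']
    · exact (hcp k).trans (hge k hk)
  have hm' : app (0 : E N) c' ∈ tlc Φ K := by
    rw [rf9_mem K 0 hc'p, hΦc']
    exact hm
  -- the combination
  have h1 := hs.clo (fun s => if s = R i then app (0 : E N) c' else q) (by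
    intro s _
    by_cases hsr : s = R i
    · simp only [hsr, if_true]; exact hm'
    · simp only [hsr, if_false]; exact hq)
  have e1 : ∀ s ∈ Λ, π s (if s = R i then app (0 : E N) c' else q) =
      app (0 : E N) (WithLp.toLp 2 fun k => if R k = s then (if R k = R i then c' k else ε) else 0) := by
    intro s _
    by_cases hsr : s = R i
    · rw [if_pos hsr, hd, map_zero]
      congr 2
      funext k
      by_cases hks : R k = s
      · rw [if_pos hks, if_pos hks, if_pos (hks.trans hsr)]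
      · rw [if_neg hks, if_neg hks]
    · rw [if_neg hsr, hqdef, hd, map_zero]
      congr 2
      funext k
      by_cases hks : R k = s
      · rw [if_pos hks, if_pos hks, if_neg (fun h2 => hsr (hks.symm.trans h2))]
      · rw [if_neg hks, if_neg hks]
  rw [Finset.sum_congr rfl e1, app_sum, Finset.sum_const_zero] at h1
  set c2 : E d := ∑ s ∈ Λ, WithLp.toLp 2 fun k => if R k = s then (if R k = R i then c' k else ε) else 0
    with hc2
  have hk2 : ∀ k, c2 k = if R k = R i then c' k else ε := by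
    intro k
    have e2 : c2 k = ∑ s ∈ Λ, (if R k = s then (if R k = R i then c' k else ε) else 0) := by
      have h3 := map_sum (EuclideanSpace.proj (𝕜 := ℝ) k : E d →L[ℝ] ℝ)
        (fun s => (WithLp.toLp 2 fun k => if R k = s then (if R k = R i then c' k else ε) else 0 : E d)) Λ
      exact h3
    rw [e2, Finset.sum_ite_eq, if_pos (hR k)]
  have hk2ε : ∀ k, ε ≤ c2 k := by
    intro k
    rw [hk2]
    split_ifs with h3
    · have h4 : k ≠ j := fun h5 => hne (by rw [← h3, h5])
      exact (hcε k).trans (hge k h4)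
    · exact le_rfl
  have h2 : app (0 : E N) (Φ c2) ∈ K := by
    rw [← rf9_mem K 0 fun k => hε.le.trans (hk2ε k)]
    exact h1
  set c3 : E d := WithLp.toLp 2 fun k => if k = i then c' i else ε with hc3
  have hk3 : ∀ k, c3 k = if k = i then c' i else ε := fun k => rfl
  have hc3p : ∀ k, 0 ≤ c3 k := by
    intro k
    rw [hk3]
    split_ifs
    · exact hc'p i
    · exact hε.le
  have h3 : app (0 : E N) (Φ c3) ∈ K := by
    apply anti h hc hK.conv hK.comp iK hc3p _ h2
    intro k
    rw [hk3]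
    split_ifs with h4
    · rw [h4, hk2, if_pos rfl]
    · exact hk2ε k
  have h4 : app (0 : E N) c3 ∈ tlc Φ K := (rf9_mem K 0 hc3p).2 h3
  have h5 : snd (app (0 : E N) c3) i ≤ snd b i := hmax (show app (0 : E N) c3 ∈ tlc Φ K ∩
      {z : E (N + d) | fst z = 0 ∧ ∀ k : Fin d, k ≠ i → snd z k = ε} from
    ⟨h4, fst_app _ _, fun k hk => by rw [snd_app, hk3, if_neg hk]⟩)
  rw [snd_app, hk3, if_pos rfl] at h5
  exact absurd h5 (not_le.2 hgt)

end Eq

end Pool.Agent.Lib.MP_1dedaf_gt.RF

/-!
# MP_1dedaf_gt, RF, row 10: the structure of `K`, `C`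
-/

set_option autoImplicit false

open MeasureTheory Set Filter Topology
open scoped ENNReal NNReal Pointwise

namespace Pool.Agent.Lib.MP_1dedaf_gt.RF

open Pool.Agent.Lib.MP_1dedaf_gt.SC
open Pool.Agent.Lib.MP_1dedaf_gt.EG
open Pool.Agent.Lib.MP_1dedaf_gt.BL

section Eq

variable {N d : ℕ} {G : Subgroup (E d ≃ₗᵢ[ℝ] E d)} {α : Fin d → E d} {Φ Ψ : E d ≃L[ℝ] E d}

/-- Every point is in the image of the chamber under an element of the group. -/
lemma rf10_dec (h : Refl G α) (hc : Cd α Φ Ψ) (y : E d) :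
    ∃ g ∈ G, ∃ c : E d, (∀ i, 0 ≤ c i) ∧ ab c = c ∧ g (Φ c) = y := by
  obtain ⟨g, hg, hy⟩ := cover h y
  obtain ⟨c, h0, h1, h2⟩ := exists_ab hc hy
  refine ⟨g⁻¹, G.inv_mem hg, c, h0, h1, ?_⟩
  rw [h2]
  exact g.symm_apply_apply y

lemma rf10_mem {K : Set (E (N + d))} (iK : Inv G K) {g : E d ≃ₗᵢ[ℝ] E d} (hg : g ∈ G)
    (x : E N) {c : E d} (hc : ab c = c) :
    app x (g (Φ c)) ∈ K ↔ app x c ∈ tlc Φ K := by
  rw [tlc_mem, hc]
  constructor
  · intro h1
    have h2 := iK g⁻¹ (G.inv_mem hg) x _ h1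
    have h3 : g⁻¹ (g (Φ c)) = Φ c := g.symm_apply_apply _
    rwa [h3] at h2
  · exact fun h1 => iK g hg x _ h1

lemma rf10_ab {c : E d} (h : ∀ i, 0 ≤ c i) : ab c = c := by
  ext i
  exact abs_of_nonneg (h i)

/-- ROW 10: the structure of `K`, `C`. -/
theorem str_back (h : Refl G α) (hc : Cd α Φ Ψ) {K C : Set (E (N + d))} (iK : Inv G K)
    (iC : Inv G C) {Λ : Finset ℝ} {π : ℝ → (E (N + d) →L[ℝ] E (N + d))}
    (hs : Str (tlc Φ K) (tlc Φ C) Λ π) {p : ℝ → (E N →L[ℝ] E N)} {ρ : ℝ} (hρ : ρ ∈ Λ)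
    (hd : ∀ r x c, π r (app x c) = app (p r x) (if r = ρ then c else 0)) :
    ∃ (Λ' : Finset ℝ) (π' : ℝ → (E (N + d) →L[ℝ] E (N + d))), Str K C Λ' π' := by
  have hρ0 : 0 < ρ := hs.fam.pos ρ hρ
  have hsum : ∀ (f : ℝ → E N) (k : ℝ → E d), ∑ r ∈ Λ, π r (app (f r) (k r)) =
      app (∑ r ∈ Λ, p r (f r)) (k ρ) := fun f k => by
    simp only [hd]
    rw [app_sum]
    congr 1
    rw [Finset.sum_eq_single_of_mem ρ hρ fun r _ hr => if_neg hr, if_pos rfl]
  have hop : ∀ (x : E N) (y : E d), op Λ π (app x y) =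
      app (∑ r ∈ Λ, r • p r x) (ρ • y) := fun x y => by
    unfold op
    simp only [FunLike.coe_sum, Finset.sum_apply, FunLike.coe_smul, Pi.smul_apply, hd, app_smul]
    rw [app_sum]
    congr 1
    rw [Finset.sum_eq_single_of_mem ρ hρ fun r _ hr => by rw [if_neg hr, smul_zero], if_pos rfl]
  have hsm : ∀ (g : E d ≃ₗᵢ[ℝ] E d) (c : E d), g (Φ (ρ • c)) = ρ • g (Φ c) := fun g c => by
    rw [map_smul, map_smul]
  refine ⟨Λ, π, hs.fam, ?_, ?_⟩
  · intro f hf
    choose g hg c hc0 hc1 hc2 using fun r => rf10_dec h hc (snd (f r))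
    have h1 : ∀ r, f r = app (fst (f r)) (g r (Φ (c r))) := fun r => by rw [hc2, app_eta]
    have h2 : ∑ r ∈ Λ, π r (f r) = app (∑ r ∈ Λ, p r (fst (f r))) (g ρ (Φ (c ρ))) := by
      rw [← hsum (fun r => fst (f r)) (fun r => g r (Φ (c r)))]
      exact Finset.sum_congr rfl fun r _ => by rw [← h1]
    rw [h2, rf10_mem iK (hg ρ) _ (hc1 ρ), ← hsum (fun r => fst (f r)) c]
    refine hs.clo _ fun r hr => ?_
    rw [← rf10_mem iK (hg r) _ (hc1 r), ← h1]
    exact hf r hr
  · apply Subset.antisymm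
    · intro q hq
      obtain ⟨g, hg, c, hc0, hc1, hc2⟩ := rf10_dec h hc (snd q)
      rw [← app_eta q, ← hc2, rf10_mem iC hg _ hc1, hs.img] at hq
      obtain ⟨z, hz, hzq⟩ := hq
      rw [← app_eta z] at hz hzq
      rw [hop] at hzq
      obtain ⟨h3, h4⟩ := app_inj hzq
      have h5 : ∀ i, 0 ≤ (snd z) i := fun i => by
        have h6 : c i = ρ * (snd z) i := by rw [← h4]; rfl
        have h7 := hc0 i
        rw [h6] at h7
        exact nonneg_of_mul_nonneg_right h7 hρ0
      rw [← rf10_mem iK hg _ (rf10_ab h5)] at hz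
      refine ⟨_, hz, ?_⟩
      rw [hop, h3, ← hsm, h4, hc2, app_eta]
    · rintro _ ⟨z, hz, rfl⟩
      obtain ⟨g, hg, c, hc0, hc1, hc2⟩ := rf10_dec h hc (snd z)
      rw [← app_eta z, ← hc2] at hz ⊢
      have h5 : ∀ i, 0 ≤ (ρ • c) i := fun i => mul_nonneg hρ0.le (hc0 i)
      rw [hop, ← hsm, rf10_mem iC hg _ (rf10_ab h5), hs.img, ← hop]
      exact mem_image_of_mem _ ((rf10_mem iK hg _ hc1).1 hz)

end Eq

end Pool.Agent.Lib.MP_1dedaf_gt.RF

/-!
# MP_1dedaf_gt, RF: row 12, the point
-/

set_option autoImplicit false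

open MeasureTheory Set Filter Topology
open scoped ENNReal NNReal Pointwise

namespace Pool.Agent.Lib.MP_1dedaf_gt.RF

open Pool.Agent.Lib.MP_1dedaf_gt.SC
open Pool.Agent.Lib.MP_1dedaf_gt.EG
open Pool.Agent.Lib.MP_1dedaf_gt.BL

theorem rf12_univ {K : Set (E 0)} (h : K.Nonempty) : K = univ := by
  obtain ⟨x, hx⟩ := h
  refine eq_univ_of_forall fun y => ?_
  rwa [Subsingleton.elim y x]

/-! ROW 12: the point. -/
theorem thm_pt : Thm (fun K : Set (E 0) => Body K) where
  body := fun K hK => hK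
  cent := fun K _ => Subsingleton.elim _ _
  ineq := by
    intro t ht0 ht1 K C hK hC
    have hK' : K = univ := rf12_univ (hK.int.mono interior_subset)
    have hC' : C = univ := rf12_univ (hC.int.mono interior_subset)
    have hL : logC t K C = univ := by
      refine rf12_univ ⟨0, fun u hu => ?_⟩
      rw [Subsingleton.elim u 0, norm_zero] at hu
      exact absurd hu zero_ne_one
    have hv : volume (univ : Set (E 0)) ≠ 0 := by
      have h : IsOpen (univ : Set (E 0)) := isOpen_univ
      exact (h.measure_pos volume univ_nonempty).ne'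
    have hv' : volume (univ : Set (E 0)) ≠ ∞ := by
      rw [← hK']
      exact hK.comp.measure_ne_top
    rw [hL, hK', hC', ← ENNReal.rpow_add _ _ hv hv', sub_add_cancel, ENNReal.rpow_one]
  str := by
    intro t ht0 ht1 K C hK hC _
    have hK' : K = univ := rf12_univ (hK.int.mono interior_subset)
    have hC' : C = univ := rf12_univ (hC.int.mono interior_subset)
    refine ⟨∅, fun _ => 0, ⟨?_, ?_, ?_, ?_, ?_⟩, ?_, ?_⟩
    · intro r hr
      exact absurd hr (Finset.notMem_empty r)
    · intro x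
      exact Subsingleton.elim _ _
    · intro r hr
      exact absurd hr (Finset.notMem_empty r)
    · intro r hr
      exact absurd hr (Finset.notMem_empty r)
    · intro r _
      rfl
    · intro f _
      rw [hK']
      exact mem_univ _
    · rw [hC', hK']
      symm
      exact rf12_univ ⟨_, 0, mem_univ _, rfl⟩

end Pool.Agent.Lib.MP_1dedaf_gt.RF

/-!
# MP_1dedaf_gt, RF, row 11: the step with a finite reflection group
-/

set_option autoImplicit false

open MeasureTheory Set Filter Topology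
open scoped ENNReal NNReal Pointwise

namespace Pool.Agent.Lib.MP_1dedaf_gt.RF

open Pool.Agent.Lib.MP_1dedaf_gt.SC
open Pool.Agent.Lib.MP_1dedaf_gt.EG
open Pool.Agent.Lib.MP_1dedaf_gt.BL

/-- All ratios are equal. -/
lemma rf11_const {d : ℕ} (hd : 0 < d) {G : Subgroup (E d ≃ₗᵢ[ℝ] E d)} {α : Fin d → E d}
    (h : Refl G α) {R : Fin d → ℝ}
    (hR : ∀ i j, (inner ℝ (α i) (α j) : ℝ) ≠ 0 → R i = R j) : ∀ i, R i = R ⟨0, hd⟩ := by
  have h1 := h.irr {i | R i = R ⟨0, hd⟩} ⟨⟨0, hd⟩, rfl⟩ (by
    intro i hi j hj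
    by_contra hne
    exact hj ((hR i j hne).symm.trans hi))
  intro i
  have h2 : i ∈ {i | R i = R ⟨0, hd⟩} := by
    rw [h1]
    exact mem_univ i
  exact h2

/-- ROW 11: the step. -/
theorem thm_XR {N d : ℕ} (hd : 0 < d) {G : Subgroup (E d ≃ₗᵢ[ℝ] E d)} {α : Fin d → E d}
    (h : Refl G α) {X : Set (E N) → Prop} (hX : Thm X) :
    Thm (XR X G : Set (E (N + d)) → Prop) := by
  refine ⟨fun K hK => hK.1, fun K hK => cent_XR hX h hK,
    fun t ht0 ht1 K C hK hC => ineq_XR hX h ht0 ht1 hK hC, ?_⟩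
  intro t ht0 ht1 K C hK hC heq
  obtain ⟨Φ, Ψ, hc⟩ := exists_cd h
  obtain ⟨Λ, π, hs⟩ := str_tlc hX h hc ht0 ht1 hK hC heq
  have fK := fl_tlc hX h hc hK
  have fC := fl_tlc hX h hc hC
  have hT : Thm (Fl X : Set (E (N + d)) → Prop) := thm_fl hX
  have vpos : volume (tlc Φ K) ≠ 0 :=
    ((isOpen_interior.measure_pos volume fK.1.int).trans_le (measure_mono interior_subset)).ne'
  have hi : (0 : E (N + d)) ∈ interior (tlc Φ K) :=
    r18_interior fK.1.conv fK.1.comp vpos (hT.cent _ fK)
  obtain ⟨p, R, hR, hdg⟩ := diag fK.1.comp hi fK.2.1 fC.2.1 hs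
  have h1 := rf11_const hd h (R := R) fun i j hij =>
    same h hc hK.1 hK.2.1 hi hs hR hdg hij
  refine str_back h hc hK.2.1 hC.2.1 hs (hR ⟨0, hd⟩) (p := p) (ρ := R ⟨0, hd⟩) ?_
  intro r x c
  rw [hdg r x c]
  congr 1
  by_cases hr : r = R ⟨0, hd⟩
  · rw [if_pos hr]
    ext i
    show (if R i = r then c i else 0) = c i
    rw [if_pos ((h1 i).trans hr.symm)]
  · rw [if_neg hr]
    ext i
    show (if R i = r then c i else 0) = (0 : E d) i
    rw [if_neg fun h2 => hr (h2.symm.trans (h1 i))]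
    rfl

end Pool.Agent.Lib.MP_1dedaf_gt.RF
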